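import Mathlib

/-!
Module SanB (helper79): Hahn-Banach sandwich for a concave functional of finite families.
-/

namespace Pool.Agent.Lib.MP_b6bd4b_an.SB

open Finset

/-- `M` bounds the weak second moment about `p` of the family `(w, y)` in `C`. -/
structure Fam {X : Type*} [NormedAddCommGroup X] [NormedSpace ℝ X] (C : Set X) (p : X)
    {ι : Type} [Fintype ι] (w : ι → ℝ) (y : ι → X) (M : ℝ) : Prop where
  w0 : ∀ i, 0 ≤ w i
  w1 : ∑ i, w i = 1
  mem : ∀ i, y i ∈ C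
  bd : ∀ h : X →L[ℝ] ℝ, ‖h‖ ≤ 1 → ∑ i, w i * (h (y i - p)) ^ 2 ≤ M

private def setB {X : Type*} [NormedAddCommGroup X] [NormedSpace ℝ X] (C : Set X) (p : X)
    (a : ℝ) (Ψ : X → ℝ) : Set (X × ℝ) :=
  {q | ∃ (ι : Type) (_ : Fintype ι) (w : ι → ℝ) (y : ι → X) (M : ℝ), Fam C p w y M ∧
    q = (∑ i, w i • (y i - p), ∑ i, w i * Ψ (y i) - a * M)}

private theorem setB_convex {X : Type*} [NormedAddCommGroup X] [NormedSpace ℝ X] (C : Set X) (p : X)
    (a : ℝ) (Ψ : X → ℝ) : Convex ℝ (setB C p a Ψ) := by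
  rintro q1 ⟨ι, _, w, y, M, h, rfl⟩ q2 ⟨κ, _, w', y', M', h', rfl⟩ α β hα hβ hαβ
  refine ⟨ι ⊕ κ, inferInstance, Sum.elim (fun i => α * w i) (fun k => β * w' k), Sum.elim y y',
    α * M + β * M', ⟨?_, ?_, ?_, ?_⟩, ?_⟩
  · rintro (i | k)
    · exact mul_nonneg hα (h.w0 i)
    · exact mul_nonneg hβ (h'.w0 k)
  · rw [Fintype.sum_sum_type]
    simp only [Sum.elim_inl, Sum.elim_inr]
    rw [← Finset.mul_sum, ← Finset.mul_sum, h.w1, h'.w1, mul_one, mul_one, hαβ]
  · rintro (i | k)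
    · exact h.mem i
    · exact h'.mem k
  · intro g hg
    rw [Fintype.sum_sum_type]
    simp only [Sum.elim_inl, Sum.elim_inr, mul_assoc]
    rw [← Finset.mul_sum, ← Finset.mul_sum]
    exact add_le_add (mul_le_mul_of_nonneg_left (h.bd g hg) hα)
      (mul_le_mul_of_nonneg_left (h'.bd g hg) hβ)
  · ext
    · simp only [Prod.fst_add, Prod.smul_fst, Fintype.sum_sum_type, Sum.elim_inl, Sum.elim_inr,
        Finset.smul_sum, mul_smul]
    · simp only [Prod.snd_add, Prod.smul_snd, Fintype.sum_sum_type, Sum.elim_inl, Sum.elim_inr,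
        mul_assoc, smul_eq_mul, ← Finset.mul_sum]
      ring

theorem sandwichB {X : Type*} [NormedAddCommGroup X] [NormedSpace ℝ X] (C : Set X) (a b : ℝ)
    (hb : 0 ≤ b) (p : X) (hp : p ∈ C) (Ψ : X → ℝ)
    (h : ∀ (ι : Type) [Fintype ι] (w : ι → ℝ) (y : ι → X) (M : ℝ), Fam C p w y M →
      ∑ i, w i * Ψ (y i) - a * M ≤ b * ‖∑ i, w i • (y i - p)‖) :
    ∃ f : X →L[ℝ] ℝ, ‖f‖ ≤ b ∧ ∀ (ι : Type) [Fintype ι] (w : ι → ℝ) (y : ι → X) (M : ℝ),
      Fam C p w y M → ∑ i, w i * Ψ (y i) - a * M ≤ f (∑ i, w i • (y i - p)) := by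
  obtain ⟨A, hA⟩ : ∃ A : Set (X × ℝ), A = {q | b * ‖q.1‖ < q.2} := ⟨_, rfl⟩
  have hAo : IsOpen A := by
    rw [hA]
    exact isOpen_lt (by fun_prop) (by fun_prop)
  have hAc : Convex ℝ A := by
    rw [hA]
    rintro q1 h1 q2 h2 α β hα hβ hαβ
    simp only [Set.mem_setOf_eq] at h1 h2 ⊢
    simp only [Prod.fst_add, Prod.smul_fst, Prod.snd_add, Prod.smul_snd, smul_eq_mul]
    have h3 : ‖α • q1.1 + β • q2.1‖ ≤ α * ‖q1.1‖ + β * ‖q2.1‖ := by
      refine (norm_add_le _ _).trans ?_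
      rw [norm_smul, norm_smul, Real.norm_of_nonneg hα, Real.norm_of_nonneg hβ]
    have h4 : b * ‖α • q1.1 + β • q2.1‖ ≤ b * (α * ‖q1.1‖ + β * ‖q2.1‖) :=
      mul_le_mul_of_nonneg_left h3 hb
    rcases hα.eq_or_lt with h5 | h5
    · have h6 : β = 1 := by rw [← h5] at hαβ; linarith
      rw [← h5, h6] at h4 ⊢
      linarith
    · nlinarith [mul_lt_mul_of_pos_left h1 h5, mul_le_mul_of_nonneg_left h2.le hβ]
  have hdis : Disjoint A (setB C p a Ψ) := by
    rw [Set.disjoint_left]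
    rintro q hq ⟨ι, _, w, y, M, hF, rfl⟩
    rw [hA] at hq
    exact absurd (h ι w y M hF) (not_le.2 hq)
  obtain ⟨F, u, hF1, hF2⟩ := geometric_hahn_banach_open hAc hAo (setB_convex C p a Ψ) hdis
  obtain ⟨α, hα⟩ : ∃ α : ℝ, α = F (0, 1) := ⟨_, rfl⟩
  obtain ⟨g, hg⟩ : ∃ g : X →L[ℝ] ℝ, g = F.comp (ContinuousLinearMap.inl ℝ X ℝ) := ⟨_, rfl⟩
  have hFg : ∀ (v : X) (t : ℝ), F (v, t) = g v + t * α := by
    intro v t
    have h1 : (v, t) = (v, (0 : ℝ)) + t • ((0 : X), (1 : ℝ)) := by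
      ext <;> simp
    rw [h1, map_add, map_smul, smul_eq_mul, hα, hg]
    rfl
  have hmemA : ∀ (v : X) (t : ℝ), b * ‖v‖ < t → (v, t) ∈ A := by
    intro v t hvt; rw [hA]; exact hvt
  have hcone : ∀ (v : X) (t : ℝ), b * ‖v‖ < t → g v + t * α ≤ 0 := by
    intro v t hvt
    by_contra hpos
    have hpos' : 0 < g v + t * α := not_le.1 hpos
    obtain ⟨n, hn⟩ := exists_nat_gt (|u| / (g v + t * α))
    have hn0 : 0 < (n : ℝ) := lt_of_le_of_lt (by positivity) hn
    have h1 : b * ‖(n : ℝ) • v‖ < n * t := by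
      rw [norm_smul, Real.norm_of_nonneg hn0.le]
      nlinarith
    have h2 := hF1 _ (hmemA _ _ h1)
    rw [hFg, map_smul, smul_eq_mul] at h2
    have h3 : |u| < n * (g v + t * α) := by
      rwa [div_lt_iff₀ hpos'] at hn
    have h4 := le_abs_self u
    nlinarith
  have hu0 : 0 ≤ u := by
    by_contra hneg
    have hneg' : u < 0 := not_le.1 hneg
    have h0 : ∀ t : ℝ, 0 < t → t * α < u := by
      intro t ht
      have h1 := hF1 _ (hmemA 0 t (by simpa using ht))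
      rw [hFg, map_zero, zero_add] at h1
      exact h1
    have h1 := h0 1 one_pos
    have hαn : α < 0 := by linarith
    have h2 := h0 (u / (2 * α)) (div_pos_of_neg_of_neg hneg' (by linarith))
    have h3 : u / (2 * α) * α = u / 2 := by
      have h4 : α ≠ 0 := hαn.ne
      field_simp
    rw [h3] at h2
    linarith
  have hFp : Fam C p (fun _ : Unit => (1 : ℝ)) (fun _ => p) 0 :=
    ⟨fun _ => zero_le_one, by simp, fun _ => hp, fun g _ => by simp⟩
  have hαn : α < 0 := by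
    have h1 : α ≤ 0 := by
      have h2 := hcone 0 1 (by simp)
      rw [map_zero] at h2
      linarith
    rcases h1.lt_or_eq with h2 | h2
    · exact h2
    · exfalso
      have h3 : ∀ v : X, g v ≤ 0 := by
        intro v
        have h4 := hcone v (b * ‖v‖ + 1) (by linarith)
        rw [h2] at h4
        linarith
      have h5 : ∀ v : X, g v = 0 := by
        intro v
        have h6 := h3 (-v)
        rw [map_neg] at h6
        exact le_antisymm (h3 v) (by linarith)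
      have h7 := hF2 _ ⟨Unit, inferInstance, _, _, 0, hFp, rfl⟩
      rw [hFg, h5, h2] at h7
      have h8 := hF1 _ (hmemA 0 1 (by simp))
      rw [hFg, h5, h2] at h8
      linarith
  refine ⟨(-α)⁻¹ • g, ?_, ?_⟩
  · refine ContinuousLinearMap.opNorm_le_bound _ hb fun v => ?_
    have hbd : ∀ v : X, (-α)⁻¹ * g v ≤ b * ‖v‖ := by
      intro v
      refine le_of_forall_pos_le_add fun r hr => ?_
      have h1 := hcone v (b * ‖v‖ + r) (by linarith)
      rw [inv_mul_le_iff₀ (by linarith)]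
      nlinarith
    rw [ContinuousLinearMap.smul_apply, smul_eq_mul, Real.norm_eq_abs, abs_le]
    constructor
    · have h1 := hbd (-v)
      rw [map_neg, norm_neg] at h1
      linarith
    · exact hbd v
  · intro ι _ w y M hF
    have h1 := hF2 _ ⟨ι, inferInstance, w, y, M, hF, rfl⟩
    rw [hFg] at h1
    rw [ContinuousLinearMap.smul_apply, smul_eq_mul, le_inv_mul_iff₀ (by linarith)]
    nlinarith

end Pool.Agent.Lib.MP_b6bd4b_an.SB
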