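import Pool.Agent.Lib.MP_b6bd4b_an.SB.Def
import Pool.Agent.Lib.MP_b6bd4b_an.SB.SanB

/-!
Module AlgB (helper79): the linear term is absorbed in the operator (version for finite families).
-/

namespace Pool.Agent.Lib.MP_b6bd4b_an.SB

open Finset RealInnerProductSpace

variable {X : Type*} [NormedAddCommGroup X] [NormedSpace ℝ X] {d : ℕ}

/-- The second moment of the images is at most `d` times the weak second moment. -/
theorem image_moment (T : X →L[ℝ] Eu d) (hT : ‖T‖ ≤ 1) {ι : Type} [Fintype ι] (w : ι → ℝ)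
    (u : ι → X) (M : ℝ) (hM : ∀ h : X →L[ℝ] ℝ, ‖h‖ ≤ 1 → ∑ i, w i * (h (u i)) ^ 2 ≤ M) :
    ∑ i, w i * ‖T (u i)‖ ^ 2 ≤ d * M := by
  have h1 : ∀ i, w i * ‖T (u i)‖ ^ 2 = ∑ k : Fin d, w i * (T (u i) k) ^ 2 := by
    intro i
    rw [EuclideanSpace.norm_sq_eq, Finset.mul_sum]
    refine Finset.sum_congr rfl fun k _ => ?_
    rw [Real.norm_eq_abs, sq_abs]
  simp only [h1]
  rw [Finset.sum_comm]
  have h2 : ∀ k : Fin d, ∑ i, w i * (T (u i) k) ^ 2 ≤ M := by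
    intro k
    have h3 := hM ((EuclideanSpace.proj k : Eu d →L[ℝ] ℝ).comp T) (by
      refine ContinuousLinearMap.opNorm_le_bound _ zero_le_one fun v => ?_
      have h4 : ‖T v k‖ ≤ ‖T v‖ := PiLp.norm_apply_le _ _
      have h5 := T.le_opNorm v
      have h6 : ‖T‖ * ‖v‖ ≤ 1 * ‖v‖ := mul_le_mul_of_nonneg_right hT (norm_nonneg v)
      exact h4.trans (h5.trans h6))
    exact h3
  calc ∑ k : Fin d, ∑ i, w i * (T (u i) k) ^ 2 ≤ ∑ _k : Fin d, M := Finset.sum_le_sum fun k _ => h2 k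
    _ = d * M := by simp

theorem absorbB (T : X →L[ℝ] Eu d) (hT : ‖T‖ ≤ 1) (C : Set X) (a b : ℝ) (ha : 0 ≤ a) (hb : 0 < b)
    (hb1 : b ≤ 1 / 2) (p : X) (hp : ‖p‖ ≤ 1) (hr : 1 / 2 ≤ ‖T p‖) (f : X →L[ℝ] ℝ) (hf : ‖f‖ ≤ b)
    (h : ∀ (ι : Type) [Fintype ι] (w : ι → ℝ) (y : ι → X) (M : ℝ), Fam C p w y M →
      ∑ i, w i * (‖T (y i)‖ ^ 2 - ‖T p‖ ^ 2) - a * M ≤ f (∑ i, w i • (y i - p))) :
    ∃ S : X →L[ℝ] Eu d, ‖S - T‖ ≤ b ∧
      ∀ (ι : Type) [Fintype ι] (w : ι → ℝ) (y : ι → X) (M : ℝ), Fam C p w y M →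
        ∑ i, w i * ‖S (y i)‖ ^ 2 ≤ ‖S p‖ ^ 2 + (2 * a + (2 * d + 3) * b) * M := by
  obtain ⟨r, hrdef⟩ : ∃ r : ℝ, r = ‖T p‖ := ⟨_, rfl⟩
  rw [← hrdef] at hr
  have hr0 : 0 < r := by linarith
  obtain ⟨v, hv⟩ : ∃ v : Eu d, v = r⁻¹ • T p := ⟨_, rfl⟩
  have hTp : T p = r • v := by rw [hv, smul_smul, mul_inv_cancel₀ hr0.ne', one_smul]
  have hvn : ‖v‖ = 1 := by
    rw [hv, norm_smul, norm_inv, Real.norm_of_nonneg hr0.le, ← hrdef, inv_mul_cancel₀ hr0.ne']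
  obtain ⟨g, hg⟩ : ∃ g : X →L[ℝ] ℝ, g = (-(2 * r)⁻¹) • f := ⟨_, rfl⟩
  have hgf : ∀ u : X, 2 * r * g u = - f u := by
    intro u
    have h1 : g u = -(2 * r)⁻¹ * f u := by rw [hg]; rfl
    rw [h1]
    field_simp
  have hgn : ‖g‖ ≤ b := by
    rw [hg, norm_smul, norm_neg, norm_inv, Real.norm_of_nonneg (by positivity)]
    have h1 : (2 * r)⁻¹ ≤ 1 := by
      apply inv_le_one_of_one_le₀; linarith
    calc (2 * r)⁻¹ * ‖f‖ ≤ 1 * b := mul_le_mul h1 hf (norm_nonneg _) zero_le_one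
      _ = b := one_mul b
  refine ⟨T + g.smulRight v, ?_, ?_⟩
  · rw [add_sub_cancel_left, ContinuousLinearMap.norm_smulRight_apply, hvn, mul_one]
    exact hgn
  intro ι _ w y M hF
  have hSv : ∀ u : X, (T + g.smulRight v) u = T u + g u • v := fun u => rfl
  obtain ⟨c, hc⟩ : ∃ c : ℝ, c = 1 + g p / r := ⟨_, rfl⟩
  have hgp : |g p| ≤ b := by
    have h1 := g.le_opNorm p
    rw [Real.norm_eq_abs] at h1
    have h2 : ‖g‖ * ‖p‖ ≤ b * 1 := mul_le_mul hgn hp (norm_nonneg _) hb.le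
    linarith
  have hcb : |1 - c| ≤ 2 * b := by
    have h1 : 1 - c = -(g p / r) := by rw [hc]; ring
    rw [h1, abs_neg, abs_div, abs_of_pos hr0, div_le_iff₀ hr0]
    nlinarith [abs_nonneg (g p)]
  have hcb' := abs_le.1 hcb
  have hc0 : 0 ≤ c := by linarith
  have hc2 : c ≤ 2 := by linarith
  have hcr : c * r = r + g p := by rw [hc]; field_simp
  have hM0 : 0 ≤ M := by
    have h1 := hF.bd 0 (by simp)
    simpa using h1
  -- the identity for one point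
  have hT1 : ∀ u : X, ‖T (p + u)‖ ^ 2 - ‖T p‖ ^ 2 = 2 * r * ⟪v, T u⟫ + ‖T u‖ ^ 2 := by
    intro u
    rw [map_add, norm_add_sq_real]
    nth_rewrite 2 [hTp]
    rw [real_inner_smul_left]
    ring
  have hS1 : ∀ u : X, ‖(T + g.smulRight v) (p + u)‖ ^ 2 - ‖(T + g.smulRight v) p‖ ^ 2 =
      c * (2 * r * ⟪v, T u⟫ - f u) + ‖T u‖ ^ 2 + 2 * (g u * ⟪v, T u⟫) + (g u) ^ 2 := by
    intro u
    rw [map_add, norm_add_sq_real, hSv, hSv, hTp]
    have h1 : r • v + g p • v = (c * r) • v := by rw [← add_smul, hcr]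
    rw [h1, real_inner_smul_left, inner_add_right, real_inner_smul_right, real_inner_self_eq_norm_sq, hvn,
      norm_add_sq_real (T u), real_inner_smul_right, real_inner_comm v (T u), norm_smul (g u) v, hvn,
      mul_one, Real.norm_eq_abs, sq_abs]
    have h2 := hgf u
    linear_combination (c) * h2
  obtain ⟨u, hu⟩ : ∃ u : ι → X, u = fun i => y i - p := ⟨_, rfl⟩
  have hyu : ∀ i, y i = p + u i := by intro i; rw [hu]; simp
  have hbd : ∀ h : X →L[ℝ] ℝ, ‖h‖ ≤ 1 → ∑ i, w i * (h (u i)) ^ 2 ≤ M := by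
    intro h hh
    rw [hu]
    exact hF.bd h hh
  have hmain := h ι w y M hF
  have h1 : ∑ i, w i * (‖T (y i)‖ ^ 2 - ‖T p‖ ^ 2) =
      2 * r * ∑ i, w i * ⟪v, T (u i)⟫ + ∑ i, w i * ‖T (u i)‖ ^ 2 := by
    rw [Finset.mul_sum, ← Finset.sum_add_distrib]
    refine Finset.sum_congr rfl fun i _ => ?_
    rw [hyu i, hT1]
    ring
  have h2 : f (∑ i, w i • (y i - p)) = ∑ i, w i * f (u i) := by
    rw [map_sum]
    refine Finset.sum_congr rfl fun i _ => ?_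
    rw [map_smul, smul_eq_mul, hu]
  rw [h1, h2] at hmain
  have hA : ∑ i, w i * ‖T (u i)‖ ^ 2 ≤ d * M := image_moment T hT w u M hbd
  have hA0 : 0 ≤ ∑ i, w i * ‖T (u i)‖ ^ 2 :=
    Finset.sum_nonneg fun i _ => mul_nonneg (hF.w0 i) (sq_nonneg _)
  have hV : ∑ i, w i * ⟪v, T (u i)⟫ ^ 2 ≤ M := by
    refine hbd ((innerSL ℝ v).comp T) ?_
    refine ContinuousLinearMap.opNorm_le_bound _ zero_le_one fun x => ?_
    have h4 : ‖⟪v, T x⟫‖ ≤ ‖v‖ * ‖T x‖ := norm_inner_le_norm _ _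
    have h5 := T.le_opNorm x
    have h6 : ‖T‖ * ‖x‖ ≤ 1 * ‖x‖ := mul_le_mul_of_nonneg_right hT (norm_nonneg x)
    rw [hvn, one_mul] at h4
    exact h4.trans (h5.trans h6)
  have hG : ∑ i, w i * (b⁻¹ * g (u i)) ^ 2 ≤ M := by
    refine hbd (b⁻¹ • g) ?_
    rw [norm_smul, norm_inv, Real.norm_of_nonneg hb.le, inv_mul_le_iff₀ hb, mul_one]
    exact hgn
  have hG2 : ∑ i, w i * (g (u i)) ^ 2 ≤ b * M := by
    have h3 : ∑ i, w i * (g (u i)) ^ 2 = b ^ 2 * ∑ i, w i * (b⁻¹ * g (u i)) ^ 2 := by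
      rw [Finset.mul_sum]
      refine Finset.sum_congr rfl fun i _ => ?_
      field_simp
    rw [h3]
    have h4 : b ^ 2 * ∑ i, w i * (b⁻¹ * g (u i)) ^ 2 ≤ b ^ 2 * M :=
      mul_le_mul_of_nonneg_left hG (sq_nonneg b)
    have h5 : b ^ 2 * M ≤ b * M := by
      have h6 : b ^ 2 ≤ b := by nlinarith
      exact mul_le_mul_of_nonneg_right h6 hM0
    linarith
  have hX : 2 * ∑ i, w i * (g (u i) * ⟪v, T (u i)⟫) ≤ 2 * b * M := by
    have h3 : 2 * ∑ i, w i * (g (u i) * ⟪v, T (u i)⟫) ≤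
        b * ∑ i, w i * (b⁻¹ * g (u i)) ^ 2 + b * ∑ i, w i * ⟪v, T (u i)⟫ ^ 2 := by
      rw [Finset.mul_sum, Finset.mul_sum, Finset.mul_sum, ← Finset.sum_add_distrib]
      refine Finset.sum_le_sum fun i _ => ?_
      have h4 : g (u i) = b * (b⁻¹ * g (u i)) := by field_simp
      obtain ⟨q, hq⟩ : ∃ q : ℝ, q = b⁻¹ * g (u i) := ⟨_, rfl⟩
      rw [← hq] at h4 ⊢
      rw [h4]
      have h5 : 0 ≤ w i * b := mul_nonneg (hF.w0 i) hb.le
      nlinarith [mul_nonneg h5 (sq_nonneg (q - ⟪v, T (u i)⟫))]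
    have h4 : b * ∑ i, w i * (b⁻¹ * g (u i)) ^ 2 ≤ b * M := mul_le_mul_of_nonneg_left hG hb.le
    have h5 : b * ∑ i, w i * ⟪v, T (u i)⟫ ^ 2 ≤ b * M := mul_le_mul_of_nonneg_left hV hb.le
    linarith
  have h3 : ∑ i, w i * ‖(T + g.smulRight v) (y i)‖ ^ 2 - ‖(T + g.smulRight v) p‖ ^ 2 =
      c * (2 * r * ∑ i, w i * ⟪v, T (u i)⟫ - ∑ i, w i * f (u i)) + ∑ i, w i * ‖T (u i)‖ ^ 2 +
        2 * ∑ i, w i * (g (u i) * ⟪v, T (u i)⟫) + ∑ i, w i * (g (u i)) ^ 2 := by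
    have h4 : ∑ i, w i * ‖(T + g.smulRight v) (y i)‖ ^ 2 - ‖(T + g.smulRight v) p‖ ^ 2 =
        ∑ i, w i * (‖(T + g.smulRight v) (y i)‖ ^ 2 - ‖(T + g.smulRight v) p‖ ^ 2) := by
      simp only [mul_sub, Finset.sum_sub_distrib]
      rw [← Finset.sum_mul, hF.w1, one_mul]
    rw [h4, Finset.mul_sum, ← Finset.sum_sub_distrib, Finset.mul_sum, Finset.mul_sum,
      ← Finset.sum_add_distrib, ← Finset.sum_add_distrib, ← Finset.sum_add_distrib]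
    refine Finset.sum_congr rfl fun i _ => ?_
    rw [hyu i, hS1]
    ring
  have h4 : c * (2 * r * ∑ i, w i * ⟪v, T (u i)⟫ - ∑ i, w i * f (u i)) ≤
      c * (a * M - ∑ i, w i * ‖T (u i)‖ ^ 2) := mul_le_mul_of_nonneg_left (by linarith) hc0
  have h5 : (1 - c) * ∑ i, w i * ‖T (u i)‖ ^ 2 ≤ 2 * b * (d * M) := by
    calc (1 - c) * ∑ i, w i * ‖T (u i)‖ ^ 2 ≤ (2 * b) * ∑ i, w i * ‖T (u i)‖ ^ 2 :=
          mul_le_mul_of_nonneg_right (by linarith) hA0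
      _ ≤ 2 * b * (d * M) := mul_le_mul_of_nonneg_left hA (by linarith)
  have h6 : c * (a * M) ≤ 2 * (a * M) := mul_le_mul_of_nonneg_right hc2 (mul_nonneg ha hM0)
  linarith

end Pool.Agent.Lib.MP_b6bd4b_an.SB
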