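import Pool.Agent.Lib.MP_b6bd4b_an.SB.Bas

/-!
Module CnvB (helper79): `ev 1 p ≤ 0` for all finite convex combinations, with the weak second moment `M` about `p`.
-/

namespace Pool.Agent.Lib.MP_b6bd4b_an.SB

open Finset

variable {X : Type*} [NormedAddCommGroup X] [NormedSpace ℝ X] {d : ℕ}

theorem conv_ineqB (T : X →L[ℝ] Eu d) (C : Set X) (hC : ∀ y ∈ C, ‖T y‖ ≤ 1)
    (a b : ℝ) (ha : 0 ≤ a) (hb : 0 ≤ b) (p : X) (hp : ev T C a b 1 p ≤ 0)
    {ι : Type} [Fintype ι] (w : ι → ℝ) (hw0 : ∀ i, 0 ≤ w i) (hw1 : ∑ i, w i = 1)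
    (y : ι → X) (hy : ∀ i, y i ∈ C) (M : ℝ)
    (hM : ∀ h : X →L[ℝ] ℝ, ‖h‖ ≤ 1 → ∑ i, w i * (h (y i - p)) ^ 2 ≤ M) :
    ∑ i, w i * (‖T (y i)‖ ^ 2 - ‖T p‖ ^ 2) - a * M ≤ b * ‖∑ i, w i • (y i - p)‖ := by
  obtain ⟨v, hv⟩ : ∃ v : X, v = ∑ i, w i • (y i - p) := ⟨_, rfl⟩
  have hM0 : 0 ≤ M := by
    have h1 := hM 0 (by simp)
    simpa using h1
  have hmean : ∑ i, w i • (y i - v) = p := by
    have h1 : ∑ i, w i • (y i - v) = ∑ i, w i • (y i - p) + ∑ i, w i • (p - v) := by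
      rw [← Finset.sum_add_distrib]
      refine Finset.sum_congr rfl fun i _ => ?_
      rw [← smul_add]; congr 1; abel
    rw [h1, ← hv, ← Finset.sum_smul, hw1, one_smul]
    abel
  have hrep : IsRep C p w (fun i => y i - v) (fun _ => v) M := by
    refine ⟨hw0, hw1, hmean, fun i => by simpa using hy i, hM0, fun φ hφ => ?_⟩
    obtain ⟨z, hz⟩ : ∃ z : X, z = ∑ i, (w i * φ i) • (y i - p) := ⟨_, rfl⟩
    have h1 : ∑ i, (w i * φ i) • (y i - v) = z := by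
      have h2 : ∑ i, (w i * φ i) • (y i - v) =
          ∑ i, (w i * φ i) • (y i - p) + ∑ i, (w i * φ i) • (p - v) := by
        rw [← Finset.sum_add_distrib]
        refine Finset.sum_congr rfl fun i _ => ?_
        rw [← smul_add]; congr 1; abel
      rw [h2, ← Finset.sum_smul, hφ, zero_smul, add_zero, hz]
    rw [h1]
    obtain ⟨g, hg1, hg2⟩ := exists_dual_vector'' ℝ z
    have h3 : ‖z‖ = ∑ i, (Real.sqrt (w i) * φ i) * (Real.sqrt (w i) * g (y i - p)) := by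
      have h4 : g z = ∑ i, (w i * φ i) * g (y i - p) := by
        rw [hz, map_sum]
        exact Finset.sum_congr rfl fun i _ => by rw [map_smul, smul_eq_mul]
      have h5 : ‖z‖ = g z := by rw [hg2]; rfl
      rw [h5, h4]
      refine Finset.sum_congr rfl fun i _ => ?_
      have h6 : Real.sqrt (w i) * Real.sqrt (w i) = w i := Real.mul_self_sqrt (hw0 i)
      calc (w i * φ i) * g (y i - p) = (Real.sqrt (w i) * Real.sqrt (w i) * φ i) * g (y i - p) := by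
            rw [h6]
        _ = _ := by ring
    have h7 := Finset.sum_mul_sq_le_sq_mul_sq Finset.univ (fun i => Real.sqrt (w i) * φ i)
      (fun i => Real.sqrt (w i) * g (y i - p))
    rw [← h3] at h7
    have h8 : ∑ i, (Real.sqrt (w i) * φ i) ^ 2 = ∑ i, w i * φ i ^ 2 :=
      Finset.sum_congr rfl fun i _ => by rw [mul_pow, Real.sq_sqrt (hw0 i)]
    have h9 : ∑ i, (Real.sqrt (w i) * g (y i - p)) ^ 2 = ∑ i, w i * (g (y i - p)) ^ 2 :=
      Finset.sum_congr rfl fun i _ => by rw [mul_pow, Real.sq_sqrt (hw0 i)]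
    rw [h8, h9] at h7
    have h10 : 0 ≤ ∑ i, w i * φ i ^ 2 := Finset.sum_nonneg fun i _ => mul_nonneg (hw0 i) (sq_nonneg _)
    calc ‖z‖ ^ 2 ≤ (∑ i, w i * φ i ^ 2) * ∑ i, w i * (g (y i - p)) ^ 2 := h7
      _ ≤ (∑ i, w i * φ i ^ 2) * M := mul_le_mul_of_nonneg_left (hM g hg1) h10
      _ = _ := by ring
  have h1 := (le_ev T C hC a b 1 ha hb zero_le_one p w _ _ M hrep).trans hp
  unfold gain at h1
  have h2 : ∀ i, y i - v + v = y i := fun i => by abel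
  simp only [h2] at h1
  rw [← Finset.sum_mul, hw1, one_mul, one_mul] at h1
  have h3 : ∑ i, w i * (‖T (y i)‖ ^ 2 - ‖T p‖ ^ 2) = ∑ i, w i * ‖T (y i)‖ ^ 2 - ‖T p‖ ^ 2 := by
    simp only [mul_sub, Finset.sum_sub_distrib]
    rw [← Finset.sum_mul, hw1, one_mul]
  rw [h3, ← hv]
  linarith

end Pool.Agent.Lib.MP_b6bd4b_an.SB
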