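import Pool.Agent.Lib.MP_b6bd4b_an.SB.Core
import Pool.Agent.Lib.MP_b6bd4b_an.SB.CnvB
import Pool.Agent.Lib.MP_b6bd4b_an.SB.SanB
import Pool.Agent.Lib.MP_b6bd4b_an.SB.AlgB

/-!
Module At (helper79): the operator `S` at a point `p` with `ev 1 p ≤ 0`, and `‖p‖ = 1`.
-/

namespace Pool.Agent.Lib.MP_b6bd4b_an.SB

open Finset

variable {X : Type*} [NormedAddCommGroup X] [NormedSpace ℝ X] {d : ℕ}

/-- The operator `S` which satisfies the second order inequality at `p`. -/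
theorem operator_at (T : X →L[ℝ] Eu d) (hT : ‖T‖ ≤ 1) (a : ℝ) (ha0 : 0 < a) (ha1 : a ≤ 1 / 2)
    (p : X) (hpn : ‖p‖ ≤ 1) (hTp : 1 / 2 ≤ ‖T p‖)
    (hev : ev T (Metric.closedBall (0 : X) 1) a a 1 p ≤ 0) :
    ∃ S : X →L[ℝ] Eu d, ‖S - T‖ ≤ a ∧
      ∀ (ι : Type) [Fintype ι] (w : ι → ℝ) (y : ι → X) (M : ℝ), (∀ i, 0 ≤ w i) →
        ∑ i, w i = 1 → (∀ i, ‖y i‖ ≤ 1) →
        (∀ h : X →L[ℝ] ℝ, ‖h‖ ≤ 1 → ∑ i, w i * (h (y i - p)) ^ 2 ≤ M) →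
        ∑ i, w i * ‖S (y i)‖ ^ 2 ≤ ‖S p‖ ^ 2 + (2 * a + (2 * d + 3) * a) * M := by
  obtain ⟨C, hCdef⟩ : ∃ C : Set X, C = Metric.closedBall (0 : X) 1 := ⟨_, rfl⟩
  rw [← hCdef] at hev
  have hmem : ∀ y : X, y ∈ C ↔ ‖y‖ ≤ 1 := by
    intro y; rw [hCdef, mem_closedBall_zero_iff]
  have hC : ∀ y ∈ C, ‖T y‖ ≤ 1 := by
    intro y hy
    have h1 := T.le_opNorm y
    have h2 : ‖T‖ * ‖y‖ ≤ 1 * 1 := mul_le_mul hT ((hmem y).1 hy) (norm_nonneg _) zero_le_one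
    linarith
  have hpC : p ∈ C := (hmem p).2 hpn
  obtain ⟨f, hf1, hf2⟩ := sandwichB C a a ha0.le p hpC (fun y => ‖T y‖ ^ 2 - ‖T p‖ ^ 2) (by
      intro ι _ w y M hF
      exact conv_ineqB T C hC a a ha0.le ha0.le p hev w hF.w0 hF.w1 y hF.mem M hF.bd)
  obtain ⟨S, hS1, hS2⟩ := absorbB T hT C a a ha0.le ha0 ha1 p hpn hTp f hf1 hf2
  exact ⟨S, hS1, fun ι _ w y M hw0 hw1 hy hM => hS2 ι w y M ⟨hw0, hw1, fun i => (hmem _).2 (hy i), hM⟩⟩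

/-- The inequality at `p` for single points, and `‖p‖ = 1`. -/
theorem unit_at (S : X →L[ℝ] Eu d) (p : X) (hpn : ‖p‖ ≤ 1) (hSp : 0 < ‖S p‖) (c : ℝ) (hc0 : 0 ≤ c)
    (hc : c ≤ 1)
    (h : ∀ (ι : Type) [Fintype ι] (w : ι → ℝ) (y : ι → X) (M : ℝ), (∀ i, 0 ≤ w i) →
        ∑ i, w i = 1 → (∀ i, ‖y i‖ ≤ 1) →
        (∀ h : X →L[ℝ] ℝ, ‖h‖ ≤ 1 → ∑ i, w i * (h (y i - p)) ^ 2 ≤ M) →
        ∑ i, w i * ‖S (y i)‖ ^ 2 ≤ ‖S p‖ ^ 2 + c * M) :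
    (∀ y : X, ‖y‖ ≤ 1 → ‖S y‖ ^ 2 ≤ ‖S p‖ ^ 2 + c * ‖y - p‖ ^ 2) ∧ ‖p‖ = 1 := by
  have hpt : ∀ y : X, ‖y‖ ≤ 1 → ‖S y‖ ^ 2 ≤ ‖S p‖ ^ 2 + c * ‖y - p‖ ^ 2 := by
    intro y hy
    have h0 := h Unit (fun _ => (1 : ℝ)) (fun _ => y) (‖y - p‖ ^ 2) (fun _ => zero_le_one) (by simp)
      (fun _ => hy) (by
        intro g hg
        have h1 := g.le_opNorm (y - p)
        have h2 : ‖g‖ * ‖y - p‖ ≤ 1 * ‖y - p‖ := mul_le_mul_of_nonneg_right hg (norm_nonneg _)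
        have h3 : |g (y - p)| ≤ ‖y - p‖ := by
          rw [← Real.norm_eq_abs]; linarith
        have h4 : (g (y - p)) ^ 2 ≤ ‖y - p‖ ^ 2 := by
          rw [← sq_abs]; exact pow_le_pow_left₀ (abs_nonneg _) h3 2
        simpa using h4)
    simpa using h0
  refine ⟨hpt, ?_⟩
  by_contra hne
  have hlt : ‖p‖ < 1 := lt_of_le_of_ne hpn hne
  obtain ⟨t, ht0, ht1, ht2⟩ : ∃ t : ℝ, 0 < t ∧ t ≤ 1 - ‖p‖ ∧ t ≤ ‖S p‖ ^ 2 :=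
    ⟨min (1 - ‖p‖) (‖S p‖ ^ 2), lt_min (by linarith) (by positivity), min_le_left _ _,
      min_le_right _ _⟩
  have hn0 : 0 ≤ ‖p‖ := norm_nonneg p
  have hy : ‖(1 + t) • p‖ ≤ 1 := by
    rw [norm_smul, Real.norm_of_nonneg (by linarith)]
    nlinarith
  have h1 := hpt _ hy
  have h2 : (1 + t) • p - p = t • p := by rw [add_smul, one_smul]; abel
  rw [h2, map_smul, norm_smul, norm_smul, Real.norm_of_nonneg (by linarith : (0 : ℝ) ≤ 1 + t),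
    Real.norm_of_nonneg ht0.le, mul_pow, mul_pow] at h1
  have h3 : c * (t ^ 2 * ‖p‖ ^ 2) ≤ t ^ 2 := by
    have h4 : ‖p‖ ^ 2 ≤ 1 := by nlinarith
    have h5 : t ^ 2 * ‖p‖ ^ 2 ≤ t ^ 2 := by nlinarith [sq_nonneg t]
    have h6 : 0 ≤ t ^ 2 * ‖p‖ ^ 2 := by positivity
    nlinarith
  have h7 : 0 < ‖S p‖ ^ 2 := by positivity
  have h8 : 2 * t * ‖S p‖ ^ 2 ≤ t ^ 2 := by nlinarith [mul_pos ht0 ht0, mul_pos (mul_pos ht0 ht0) h7]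
  have h9 : 2 * ‖S p‖ ^ 2 ≤ t := by
    by_contra h10
    have h11 : t < 2 * ‖S p‖ ^ 2 := not_le.1 h10
    nlinarith [mul_lt_mul_of_pos_left h11 ht0]
  linarith

/-- `S p ≠ 0` if `S` is close to `T` and `‖T p‖ ≥ 1/2`. -/
theorem pos_at (T S : X →L[ℝ] Eu d) (a : ℝ) (ha1 : a ≤ 1 / 4) (hS : ‖S - T‖ ≤ a) (p : X)
    (hpn : ‖p‖ ≤ 1) (hTp : 1 / 2 ≤ ‖T p‖) : 0 < ‖S p‖ := by
  have h1 : ‖(S - T) p‖ ≤ 1 / 4 := by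
    have h2 := (S - T).le_opNorm p
    have h3 : ‖S - T‖ * ‖p‖ ≤ 1 / 4 * 1 :=
      mul_le_mul (hS.trans ha1) hpn (norm_nonneg _) (by norm_num)
    linarith
  have h4 : ‖T p‖ ≤ ‖S p‖ + ‖(S - T) p‖ := by
    have h5 : T p = S p - (S - T) p := by
      rw [ContinuousLinearMap.sub_apply]; abel
    calc ‖T p‖ = ‖S p - (S - T) p‖ := by rw [← h5]
      _ ≤ _ := norm_sub_le _ _
  linarith

end Pool.Agent.Lib.MP_b6bd4b_an.SB
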