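import Pool.Agent.Lib.MP_b6bd4b_an.SB.Def

/-!
Module Bas: elementary properties of `ev`.

PLAN. `ev_triv`: the one point representation (`ι = Unit`, `w = 1`, `ξ = x`, `δ = 0`, `s = 0`) is an `IsRep` for `x ∈ C` with gain `0`.
`gain_le`: `∑ w ‖T(ξ+δ)‖² ≤ ∑ w = 1` and the penalty is `≥ 0`. So `vals` is bounded above by `1 - ‖T x‖²`; `le_ev` = `le_csSup`,
`ev_near` = `exists_lt_of_lt_csSup`, `ev_le` = `csSup_le`. `ev_anti`: gain is antitone in `l` (penalty ≥ 0).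
`ev_lip`: from a representation `(w, ξ, δ, s)` of `x` one gets `(w, ξ + (y - x), δ - (y - x), s)` of `y` (same values `ξ + δ`; `wv`: the extra term
is `(∑ w φ) • (y - x) = 0`); the gain changes by `‖T x‖² - ‖T y‖² ≤ 2 ‖x - y‖` (both norms ≤ 1, `‖T‖ ≤ 1`) and `b ∑ w ‖δ - (y-x)‖ ≤ b ∑ w ‖δ‖ + b ‖y - x‖`.
-/

namespace Pool.Agent.Lib.MP_b6bd4b_an.SB

open Finset

variable {X : Type*} [NormedAddCommGroup X] [NormedSpace ℝ X] {d : ℕ}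

private theorem Bas_triv (C : Set X) (x : X) (hx : x ∈ C) :
    IsRep C x (fun _ : Unit => (1 : ℝ)) (fun _ => x) (fun _ => 0) 0 := by
  refine ⟨fun _ => zero_le_one, by simp, by simp, fun _ => by simpa using hx, le_rfl, fun φ hφ => ?_⟩
  have h1 : φ () = 0 := by simpa using hφ
  simp [h1]

private theorem Bas_triv_gain (T : X →L[ℝ] Eu d) (a b l : ℝ) (x : X) :
    gain T a b l x (fun _ : Unit => (1 : ℝ)) (fun _ => x) (fun _ => 0) 0 = 0 := by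
  simp [gain]

private theorem Bas_nonempty (T : X →L[ℝ] Eu d) (C : Set X) (a b l : ℝ) (x : X) (hx : x ∈ C) :
    (vals T C a b l x).Nonempty :=
  ⟨_, Unit, inferInstance, _, _, _, _, Bas_triv C x hx, rfl⟩

theorem gain_le {ι : Type} [Fintype ι] (T : X →L[ℝ] Eu d) (C : Set X) (hC : ∀ y ∈ C, ‖T y‖ ≤ 1)
    (a b l : ℝ) (ha : 0 ≤ a) (hb : 0 ≤ b) (hl : 0 ≤ l) (x : X) (w : ι → ℝ) (ξ δ : ι → X) (s : ℝ)
    (h : IsRep C x w ξ δ s) : gain T a b l x w ξ δ s ≤ 1 - ‖T x‖ ^ 2 := by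
  have h1 : ∑ i, w i * ‖T (ξ i + δ i)‖ ^ 2 ≤ 1 := by
    rw [← h.w1]
    refine Finset.sum_le_sum fun i _ => ?_
    have h2 : ‖T (ξ i + δ i)‖ ^ 2 ≤ 1 := pow_le_one₀ (norm_nonneg _) (hC _ (h.mem i))
    nlinarith [h.w0 i]
  have h3 : 0 ≤ ∑ i, w i * ‖δ i‖ := Finset.sum_nonneg fun i _ => mul_nonneg (h.w0 i) (norm_nonneg _)
  have h4 : 0 ≤ l * (a * s + b * ∑ i, w i * ‖δ i‖) :=
    mul_nonneg hl (add_nonneg (mul_nonneg ha h.s0) (mul_nonneg hb h3))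
  unfold gain
  linarith

theorem le_ev {ι : Type} [Fintype ι] (T : X →L[ℝ] Eu d) (C : Set X) (hC : ∀ y ∈ C, ‖T y‖ ≤ 1)
    (a b l : ℝ) (ha : 0 ≤ a) (hb : 0 ≤ b) (hl : 0 ≤ l) (x : X) (w : ι → ℝ) (ξ δ : ι → X) (s : ℝ)
    (h : IsRep C x w ξ δ s) : gain T a b l x w ξ δ s ≤ ev T C a b l x := by
  refine le_csSup ⟨1 - ‖T x‖ ^ 2, ?_⟩ ⟨ι, inferInstance, w, ξ, δ, s, h, rfl⟩
  rintro v ⟨ι', _, w', ξ', δ', s', h', rfl⟩
  exact gain_le T C hC a b l ha hb hl x w' ξ' δ' s' h'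

theorem ev_nonneg (T : X →L[ℝ] Eu d) (C : Set X) (hC : ∀ y ∈ C, ‖T y‖ ≤ 1)
    (a b l : ℝ) (ha : 0 ≤ a) (hb : 0 ≤ b) (hl : 0 ≤ l) (x : X) (hx : x ∈ C) :
    0 ≤ ev T C a b l x := by
  have h := le_ev T C hC a b l ha hb hl x _ _ _ _ (Bas_triv C x hx)
  rw [Bas_triv_gain] at h
  exact h

theorem ev_le_one (T : X →L[ℝ] Eu d) (C : Set X) (hC : ∀ y ∈ C, ‖T y‖ ≤ 1)
    (a b l : ℝ) (ha : 0 ≤ a) (hb : 0 ≤ b) (hl : 0 ≤ l) (x : X) (hx : x ∈ C) :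
    ev T C a b l x ≤ 1 - ‖T x‖ ^ 2 := by
  refine csSup_le (Bas_nonempty T C a b l x hx) ?_
  rintro v ⟨ι', _, w', ξ', δ', s', h', rfl⟩
  exact gain_le T C hC a b l ha hb hl x w' ξ' δ' s' h'

theorem ev_near (T : X →L[ℝ] Eu d) (C : Set X) (a b l : ℝ) (x : X) (hx : x ∈ C) (η : ℝ) (hη : 0 < η) :
    ∃ (ι : Type) (_ : Fintype ι) (w : ι → ℝ) (ξ δ : ι → X) (s : ℝ),
      IsRep C x w ξ δ s ∧ ev T C a b l x - η < gain T a b l x w ξ δ s := by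
  obtain ⟨v, ⟨ι, inst, w, ξ, δ, s, h, rfl⟩, hv⟩ :=
    exists_lt_of_lt_csSup (Bas_nonempty T C a b l x hx) (sub_lt_self (ev T C a b l x) hη)
  exact ⟨ι, inst, w, ξ, δ, s, h, hv⟩

theorem ev_anti (T : X →L[ℝ] Eu d) (C : Set X) (hC : ∀ y ∈ C, ‖T y‖ ≤ 1)
    (a b l l' : ℝ) (ha : 0 ≤ a) (hb : 0 ≤ b) (hl : 0 ≤ l) (hll : l ≤ l') (x : X) (hx : x ∈ C) :
    ev T C a b l' x ≤ ev T C a b l x := by
  refine csSup_le (Bas_nonempty T C a b l' x hx) ?_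
  rintro v ⟨ι', _, w', ξ', δ', s', h', rfl⟩
  refine le_trans ?_ (le_ev T C hC a b l ha hb hl x w' ξ' δ' s' h')
  have h3 : 0 ≤ ∑ i, w' i * ‖δ' i‖ := Finset.sum_nonneg fun i _ => mul_nonneg (h'.w0 i) (norm_nonneg _)
  have h4 : 0 ≤ a * s' + b * ∑ i, w' i * ‖δ' i‖ := add_nonneg (mul_nonneg ha h'.s0) (mul_nonneg hb h3)
  have h5 := mul_le_mul_of_nonneg_right hll h4
  unfold gain
  linarith

theorem ev_lip (T : X →L[ℝ] Eu d) (hT : ‖T‖ ≤ 1) (C : Set X) (hC : ∀ y ∈ C, ‖T y‖ ≤ 1)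
    (a b l : ℝ) (ha : 0 ≤ a) (hb : 0 ≤ b) (hl : 0 ≤ l) (hl1 : l ≤ 1) (x y : X) (hx : x ∈ C) (hy : y ∈ C) :
    ev T C a b l x ≤ ev T C a b l y + (b + 2) * ‖x - y‖ := by
  refine csSup_le (Bas_nonempty T C a b l x hx) ?_
  rintro v ⟨ι', _, w, ξ, δ, s, h, rfl⟩
  have h1 : IsRep C y w (fun i => ξ i + (y - x)) (fun i => δ i - (y - x)) s := by
    refine ⟨h.w0, h.w1, ?_, fun i => ?_, h.s0, fun φ hφ => ?_⟩
    · simp only [smul_add, Finset.sum_add_distrib]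
      rw [h.mean, ← Finset.sum_smul, h.w1, one_smul]
      abel
    · have h2 : ξ i + (y - x) + (δ i - (y - x)) = ξ i + δ i := by abel
      rw [h2]
      exact h.mem i
    · have h2 : ∑ i, (w i * φ i) • (ξ i + (y - x)) = ∑ i, (w i * φ i) • ξ i := by
        simp only [smul_add, Finset.sum_add_distrib]
        rw [← Finset.sum_smul, hφ, zero_smul, add_zero]
      rw [h2]
      exact h.wv φ hφ
  have h3 := le_ev T C hC a b l ha hb hl y _ _ _ _ h1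
  refine le_trans ?_ (add_le_add_left h3 ((b + 2) * ‖x - y‖))
  have h4 : ∀ i, ξ i + (y - x) + (δ i - (y - x)) = ξ i + δ i := fun i => by abel
  have h5 : ∑ i, w i * ‖δ i - (y - x)‖ ≤ ∑ i, w i * ‖δ i‖ + ‖x - y‖ := by
    have h6 : ∑ i, w i * ‖δ i‖ + ‖x - y‖ = ∑ i, w i * (‖δ i‖ + ‖x - y‖) := by
      simp only [mul_add, Finset.sum_add_distrib]
      rw [← Finset.sum_mul, h.w1, one_mul]
    rw [h6]
    refine Finset.sum_le_sum fun i _ => mul_le_mul_of_nonneg_left ?_ (h.w0 i)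
    rw [norm_sub_rev x y]
    exact norm_sub_le _ _
  have h7 : ‖T y‖ ^ 2 - ‖T x‖ ^ 2 ≤ 2 * ‖x - y‖ := by
    have h8 : ‖T y‖ - ‖T x‖ ≤ ‖x - y‖ := by
      refine (norm_sub_norm_le _ _).trans ?_
      rw [← map_sub, norm_sub_rev x y]
      refine (T.le_opNorm _).trans ?_
      exact mul_le_of_le_one_left (norm_nonneg _) hT
    have h9 := hC x hx
    have h10 := hC y hy
    have h11 := norm_nonneg (T x)
    have h12 := norm_nonneg (T y)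
    have h13 := norm_nonneg (x - y)
    nlinarith
  have h14 : 0 ≤ l * b := mul_nonneg hl hb
  have h15 : l * b ≤ b := mul_le_of_le_one_left hb hl1
  have h16 := mul_le_mul_of_nonneg_left h5 h14
  have h17 : l * b * ‖x - y‖ ≤ b * ‖x - y‖ := mul_le_mul_of_nonneg_right h15 (norm_nonneg _)
  unfold gain
  simp only [h4]
  nlinarith

end Pool.Agent.Lib.MP_b6bd4b_an.SB
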