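import Pool.Agent.Lib.MP_b6bd4b_an.SB.Def

/-!
Module Cel: a part of large weight whose points are close to each other (pigeonhole in `ℝ^d`).

PLAN. `h = r / d` (`d ≥ 1`), `F i : Fin d → ℤ`, `F i k = ⌊(z i k - z0 k) / h⌋`. `G` = the `i` with `‖z i - z0‖² ≤ 2 Q`: its weight is at least `1/2`
(otherwise `∑ w ‖z - z0‖² > 2 Q * (1/2)`; treat `≥`/`>` with care). For `i ∈ G`: `|z i k - z0 k| ≤ √(2Q)`, so `F i k ∈ [-N-1, N]` with `N = ⌊√(2Q)/h⌋`, at most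
`2 √(2Q)/h + 2 ≤ 2 (√2 d + 1) √Q / r ≤ 5 d Q / r²` values (`r² ≤ Q`, so `√Q / r ≤ Q / r²`). So some fiber `E` of `F` in `G` has weight `≥ (1/2) (r² / (5 d Q))^d ≥ (r²/(10 d Q))^d`
(if all fibers had smaller weight, the sum over `Fintype.piFinset` would be `< 1/2`: `Finset.sum_fiberwise_of_maps_to`, `Finset.sum_lt_sum_of_nonempty` or
`Finset.exists_le_of_sum_le`). In one fiber all coordinates differ by at most `h`, so `‖z i - z j‖ ≤ √(d) h ≤ r`.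
-/

namespace Pool.Agent.Lib.MP_b6bd4b_an.SB

open Finset

private lemma half_weight {ι : Type} [Fintype ι] [DecidableEq ι] (w g : ι → ℝ)
    (hw0 : ∀ i, 0 ≤ w i) (hw1 : ∑ i, w i = 1) (hg : ∀ i, 0 ≤ g i) (Q : ℝ) (hQ : 0 < Q)
    (h : ∑ i, w i * g i ≤ Q) :
    (1 : ℝ) / 2 ≤ ∑ i ∈ univ.filter (fun i => g i ≤ 2 * Q), w i := by
  have h1 := Finset.sum_filter_add_sum_filter_not univ (fun i => g i ≤ 2 * Q) w
  rw [hw1] at h1
  have h2 : (∑ i ∈ univ.filter (fun i => ¬ g i ≤ 2 * Q), w i) * (2 * Q) ≤ Q := by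
    calc (∑ i ∈ univ.filter (fun i => ¬ g i ≤ 2 * Q), w i) * (2 * Q)
        = ∑ i ∈ univ.filter (fun i => ¬ g i ≤ 2 * Q), w i * (2 * Q) := by rw [Finset.sum_mul]
      _ ≤ ∑ i ∈ univ.filter (fun i => ¬ g i ≤ 2 * Q), w i * g i := by
          apply Finset.sum_le_sum
          intro i hi
          rw [Finset.mem_filter] at hi
          exact mul_le_mul_of_nonneg_left (not_le.1 hi.2).le (hw0 i)
      _ ≤ ∑ i, w i * g i :=
          Finset.sum_le_sum_of_subset_of_nonneg (Finset.filter_subset _ _)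
            fun i _ _ => mul_nonneg (hw0 i) (hg i)
      _ ≤ Q := h
  nlinarith

private lemma card_bound {d : ℕ} (hd : 1 ≤ d) (Q : ℝ) (hQ : 0 < Q) (r : ℝ) (hr : 0 < r)
    (hrQ : r ^ 2 ≤ Q) :
    ((Finset.Icc ⌊-(Real.sqrt (2 * Q) / (r / d))⌋ ⌊Real.sqrt (2 * Q) / (r / d)⌋).card : ℝ) ≤
      5 * d * Q / r ^ 2 := by
  set M : ℝ := Real.sqrt (2 * Q) / (r / d) with hM
  have hd' : (1 : ℝ) ≤ d := by exact_mod_cast hd
  have hM0 : 0 ≤ M := by positivity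
  have h1 : ⌊-M⌋ ≤ ⌊M⌋ := Int.floor_le_floor (by linarith)
  have h2 : ((Finset.Icc ⌊-M⌋ ⌊M⌋).card : ℝ) ≤ 2 * M + 2 := by
    rw [Int.card_Icc]
    have h3 : (((⌊M⌋ + 1 - ⌊-M⌋).toNat : ℕ) : ℝ) = ((⌊M⌋ + 1 - ⌊-M⌋ : ℤ) : ℝ) := by
      rw [← Int.cast_natCast, Int.toNat_of_nonneg (by omega)]
    rw [h3]
    push_cast
    have h4 := Int.floor_le M
    have h5 := Int.lt_floor_add_one (-M)
    linarith
  refine h2.trans ?_
  set s : ℝ := Real.sqrt Q with hs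
  have hs0 : 0 < s := Real.sqrt_pos.2 hQ
  have hsQ : s ^ 2 = Q := Real.sq_sqrt hQ.le
  have hrs : r ≤ s := by
    rw [hs]
    exact Real.le_sqrt_of_sq_le hrQ
  have h6 : Real.sqrt (2 * Q) ≤ 3 / 2 * s := by
    rw [← Real.sqrt_sq (by positivity : (0 : ℝ) ≤ 3 / 2 * s)]
    apply Real.sqrt_le_sqrt
    nlinarith
  have h7 : M ≤ 3 / 2 * s * d / r := by
    rw [hM, div_div_eq_mul_div]
    apply div_le_div_of_nonneg_right _ hr.le
    exact mul_le_mul_of_nonneg_right h6 (by linarith)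
  have h8 : 2 * M + 2 ≤ 5 * s * d / r := by
    have h9 : (2 : ℝ) ≤ 2 * s * d / r := by
      rw [le_div_iff₀ hr]
      nlinarith
    have h10 : 5 * s * d / r = 2 * (3 / 2 * s * d / r) + 2 * s * d / r := by ring
    rw [h10]
    linarith
  refine h8.trans ?_
  rw [div_le_div_iff₀ hr (by positivity), ← hsQ]
  have : 0 ≤ 5 * s * d * r * (s - r) := by
    have := sub_nonneg.2 hrs
    positivity
  nlinarith

theorem cell {d : ℕ} (hd : 1 ≤ d) {ι : Type} [Fintype ι] (w : ι → ℝ) (hw0 : ∀ i, 0 ≤ w i)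
    (hw1 : ∑ i, w i = 1) (z : ι → Eu d) (z0 : Eu d) (Q : ℝ) (hQ : 0 < Q)
    (h : ∑ i, w i * ‖z i - z0‖ ^ 2 ≤ Q) (r : ℝ) (hr : 0 < r) (hrQ : r ^ 2 ≤ Q) :
    ∃ E : Finset ι, (r ^ 2 / (10 * d * Q)) ^ d ≤ ∑ i ∈ E, w i ∧
      ∀ i ∈ E, ∀ j ∈ E, ‖z i - z j‖ ≤ r := by
  classical
  have hd' : (1 : ℝ) ≤ d := by exact_mod_cast hd
  set M : ℝ := Real.sqrt (2 * Q) / (r / d) with hM
  have hh : 0 < r / d := by positivity
  set F : ι → Fin d → ℤ := fun i k => ⌊(z i k - z0 k) / (r / d)⌋ with hF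
  set G : Finset ι := univ.filter (fun i => ‖z i - z0‖ ^ 2 ≤ 2 * Q) with hG
  set t : Finset (Fin d → ℤ) := Fintype.piFinset fun _ : Fin d => Finset.Icc ⌊-M⌋ ⌊M⌋ with ht
  have hM0 : 0 ≤ M := by positivity
  have hcoord : ∀ (v : Eu d) (k : Fin d), |v k| ≤ ‖v‖ := fun v k => by
    have := EuclideanSpace.norm_eq v
    rw [this]
    apply Real.le_sqrt_of_sq_le
    rw [sq_abs]
    calc v k ^ 2 = ‖v k‖ ^ 2 := by rw [Real.norm_eq_abs, sq_abs]
      _ ≤ ∑ i, ‖v i‖ ^ 2 :=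
        Finset.single_le_sum (f := fun i => ‖v i‖ ^ 2) (fun i _ => by positivity) (mem_univ k)
  have hmaps : ∀ i ∈ G, F i ∈ t := by
    intro i hi
    rw [hG, Finset.mem_filter] at hi
    rw [ht, Fintype.mem_piFinset]
    intro k
    have h1 : |z i k - z0 k| ≤ Real.sqrt (2 * Q) := by
      refine le_trans ?_ (Real.le_sqrt_of_sq_le hi.2)
      exact hcoord (z i - z0) k
    have h2 : |(z i k - z0 k) / (r / d)| ≤ M := by
      rw [abs_div, abs_of_pos hh, hM]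
      exact div_le_div_of_nonneg_right h1 hh.le
    rw [abs_le] at h2
    rw [Finset.mem_Icc]
    exact ⟨Int.floor_le_floor h2.1, Int.floor_le_floor h2.2⟩
  have htne : t.Nonempty := by
    rw [ht]
    refine ⟨fun _ => ⌊M⌋, ?_⟩
    rw [Fintype.mem_piFinset]
    intro k
    rw [Finset.mem_Icc]
    exact ⟨Int.floor_le_floor (by linarith), le_rfl⟩
  have hGw : (1 : ℝ) / 2 ≤ ∑ i ∈ G, w i :=
    half_weight w (fun i => ‖z i - z0‖ ^ 2) hw0 hw1 (fun i => by positivity) Q hQ h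
  have hcard : (t.card : ℝ) = ((Finset.Icc ⌊-M⌋ ⌊M⌋).card : ℝ) ^ d := by
    rw [ht, Fintype.card_piFinset]
    simp
  have hK := card_bound hd Q hQ r hr hrQ
  rw [← hM] at hK
  have hb : t.card • (r ^ 2 / (10 * d * Q)) ^ d ≤ ∑ i ∈ G, w i := by
    refine le_trans ?_ hGw
    rw [nsmul_eq_mul, hcard, ← mul_pow]
    have h1 : ((Finset.Icc ⌊-M⌋ ⌊M⌋).card : ℝ) * (r ^ 2 / (10 * d * Q)) ≤ 1 / 2 := by
      calc ((Finset.Icc ⌊-M⌋ ⌊M⌋).card : ℝ) * (r ^ 2 / (10 * d * Q))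
          ≤ (5 * d * Q / r ^ 2) * (r ^ 2 / (10 * d * Q)) :=
            mul_le_mul_of_nonneg_right hK (by positivity)
        _ = 1 / 2 := by field_simp; norm_num
    calc (((Finset.Icc ⌊-M⌋ ⌊M⌋).card : ℝ) * (r ^ 2 / (10 * d * Q))) ^ d
        ≤ (1 / 2 : ℝ) ^ d := pow_le_pow_left₀ (by positivity) h1 d
      _ ≤ (1 / 2 : ℝ) ^ 1 := pow_le_pow_of_le_one (by norm_num) (by norm_num) hd
      _ = 1 / 2 := pow_one _
  obtain ⟨y, hy, hyb⟩ := Finset.exists_le_sum_fiber_of_maps_to_of_nsmul_le_sum hmaps htne hb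
  refine ⟨G.filter fun i => F i = y, hyb, ?_⟩
  intro i hi j hj
  rw [Finset.mem_filter] at hi hj
  have hk : ∀ k, |z i k - z j k| ≤ r / d := by
    intro k
    have h1 : F i k = F j k := by rw [hi.2, hj.2]
    simp only [hF] at h1
    have h2 := Int.abs_sub_lt_one_of_floor_eq_floor h1
    have h3 : (z i k - z0 k) / (r / d) - (z j k - z0 k) / (r / d) = (z i k - z j k) / (r / d) := by
      rw [← sub_div]
      congr 1
      ring
    rw [h3, abs_div, abs_of_pos hh, div_lt_one hh] at h2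
    exact h2.le
  rw [EuclideanSpace.norm_eq]
  apply Real.sqrt_le_iff.2
  refine ⟨hr.le, ?_⟩
  calc ∑ k, ‖(z i - z j) k‖ ^ 2 ≤ ∑ _k : Fin d, (r / d) ^ 2 := by
        apply Finset.sum_le_sum
        intro k _
        rw [Real.norm_eq_abs]
        exact pow_le_pow_left₀ (abs_nonneg _) (hk k) 2
    _ = d * (r / d) ^ 2 := by simp
    _ = r ^ 2 / d := by field_simp
    _ ≤ r ^ 2 := div_le_self (by positivity) hd'

end Pool.Agent.Lib.MP_b6bd4b_an.SB
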