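import Pool.Agent.Lib.MP_b6bd4b_an.SB.Def

/-!
Module Glu: two representations are glued: the part `E` of the first (a representation of `x`) is replaced by a representation of its mean `p`.

PLAN. `Fintype.sum_sum_type` everywhere; `∑ i, if i ∈ E then 0 else f i = ∑ i, f i - ∑ i ∈ E, f i` (`Finset.sum_ite_mem`, `Finset.sum_sub_distrib`).
Weights: `∑ = (1 - P) + P * 1`. Mean: `∑_{i∉E} w ξ + P (p - dE) = ∑ w ξ = x` (from `hp`, `hdE`). Membership: `(ξ' k - dE) + (δ' k + dE) = ξ' k + δ' k`.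
Weak variance: for `φ''` of mean zero put `φ i = φ'' (inl i)` (`i ∉ E`), `φ i = m := ∑ k, w' k * φ'' (inr k)` (`i ∈ E`), `ψ k = φ'' (inr k) - m`. Then
`∑ w φ = 0`, `∑ w' ψ = 0`, `∑ w'' φ'' ξ'' = ∑ w φ ξ + P ∑ w' ψ ξ'` (because `∑ w' φ''(inr) (ξ' - dE) = m (p - dE) + ∑ w' ψ ξ'` and `P (p - dE) = ∑_E w ξ`), and with
`A = ∑ w φ²`, `B = ∑ w' ψ²`: `A + P B = ∑ w'' φ''²`; `U = ‖∑ w φ ξ‖`, `V = ‖∑ w' ψ ξ'‖`, `U² ≤ s A`, `V² ≤ s' B` imply `(U + P V)² ≤ (s + P s')(A + P B)`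
(`2 U P V ≤ P (s B + s' A)` since `U V ≤ √(s A) √(s' B)` ≤ `(s B + s' A) / 2`; e.g. `U² V² ≤ (s B)(s' A)` and `abs_le_of_sq_le` or `nlinarith`).
-/

namespace Pool.Agent.Lib.MP_b6bd4b_an.SB

open Finset

variable {X : Type*} [NormedAddCommGroup X] [NormedSpace ℝ X]

private theorem glue_sum {ι M : Type*} [Fintype ι] [AddCommGroup M] (E : Finset ι) [DecidablePred (· ∈ E)] (f : ι → M) :
    ∑ i, (if i ∈ E then 0 else f i) = ∑ i, f i - ∑ i ∈ E, f i := by
  rw [eq_sub_iff_add_eq]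
  have h : ∑ i ∈ E, f i = ∑ i, (if i ∈ E then f i else 0) := by
    rw [← Finset.sum_filter]
    refine Finset.sum_congr ?_ fun _ _ => rfl
    ext i
    simp
  rw [h, ← Finset.sum_add_distrib]
  refine Finset.sum_congr rfl fun i _ => ?_
  by_cases hi : i ∈ E <;> simp [hi]

private theorem glue_num {U V s s' A B P : ℝ} (hs : 0 ≤ s) (hs' : 0 ≤ s') (hA : 0 ≤ A) (hB : 0 ≤ B)
    (hP : 0 ≤ P) (h1 : U ^ 2 ≤ s * A) (h2 : V ^ 2 ≤ s' * B) : (U + P * V) ^ 2 ≤ (s + P * s') * (A + P * B) := by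
  have h3 : 2 * (U * V) ≤ s * B + s' * A := by
    refine le_of_sq_le_sq ?_ (by positivity)
    have h4 : U ^ 2 * V ^ 2 ≤ (s * A) * (s' * B) := mul_le_mul h1 h2 (by positivity) (by positivity)
    nlinarith [sq_nonneg (s * B - s' * A)]
  have h5 : P * (2 * (U * V)) ≤ P * (s * B + s' * A) := mul_le_mul_of_nonneg_left h3 hP
  have h6 : P ^ 2 * V ^ 2 ≤ P ^ 2 * (s' * B) := mul_le_mul_of_nonneg_left h2 (by positivity)
  nlinarith

/-- Two representations are glued (`η`-free core of the module). -/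
theorem glue {ι κ : Type} [Fintype ι] [Fintype κ] (C : Set X)
    (x : X) (w : ι → ℝ) (ξ δ : ι → X) (s : ℝ) (h : IsRep C x w ξ δ s)
    (E : Finset ι) [DecidablePred (· ∈ E)] (P : ℝ) (hP : P = ∑ i ∈ E, w i) (hP0 : 0 < P)
    (p dE : X) (hp : P • p = ∑ i ∈ E, w i • (ξ i + δ i)) (hdE : P • dE = ∑ i ∈ E, w i • δ i)
    (w' : κ → ℝ) (ξ' δ' : κ → X) (s' : ℝ) (h' : IsRep C p w' ξ' δ' s') :
    IsRep C x (Sum.elim (fun i => if i ∈ E then 0 else w i) (fun k => P * w' k))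
      (Sum.elim ξ (fun k => ξ' k - dE)) (Sum.elim δ (fun k => δ' k + dE)) (s + P * s') := by
  have hpE : P • (p - dE) = ∑ i ∈ E, w i • ξ i := by
    rw [smul_sub, hp, hdE, ← Finset.sum_sub_distrib]
    refine Finset.sum_congr rfl fun i _ => ?_
    rw [smul_add, add_sub_cancel_right]
  refine ⟨?_, ?_, ?_, ?_, ?_, ?_⟩
  · rintro (i | k)
    · by_cases hi : i ∈ E
      · simp [hi]
      · simpa [hi] using h.w0 i
    · exact mul_nonneg hP0.le (h'.w0 k)
  · rw [Fintype.sum_sum_type]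
    simp only [Sum.elim_inl, Sum.elim_inr]
    rw [glue_sum, h.w1, ← Finset.mul_sum, h'.w1, ← hP]
    ring
  · rw [Fintype.sum_sum_type]
    simp only [Sum.elim_inl, Sum.elim_inr]
    have e1 : ∑ i, (if i ∈ E then 0 else w i) • ξ i = x - ∑ i ∈ E, w i • ξ i := by
      rw [← h.mean, ← glue_sum]
      refine Finset.sum_congr rfl fun i _ => ?_
      by_cases hi : i ∈ E <;> simp [hi]
    have e2 : ∑ k, (P * w' k) • (ξ' k - dE) = P • (p - dE) := by
      have e3 : ∑ k, (P * w' k) • (ξ' k - dE) = P • (∑ k, w' k • ξ' k - (∑ k, w' k) • dE) := by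
        rw [Finset.sum_smul, ← Finset.sum_sub_distrib, Finset.smul_sum]
        refine Finset.sum_congr rfl fun k _ => ?_
        rw [← smul_sub, smul_smul]
      rw [e3, h'.mean, h'.w1, one_smul]
    rw [e1, e2, hpE, sub_add_cancel]
  · rintro (i | k)
    · exact h.mem i
    · have e : ξ' k - dE + (δ' k + dE) = ξ' k + δ' k := by abel
      simp only [Sum.elim_inr]
      rw [e]
      exact h'.mem k
  · exact add_nonneg h.s0 (mul_nonneg hP0.le h'.s0)
  · intro φ hφ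
    rw [Fintype.sum_sum_type] at hφ
    simp only [Sum.elim_inl, Sum.elim_inr] at hφ
    obtain ⟨m, hm⟩ : ∃ m : ℝ, m = ∑ k, w' k * φ (Sum.inr k) := ⟨_, rfl⟩
    have hPm : ∑ k, P * w' k * φ (Sum.inr k) = P * m := by
      rw [hm, Finset.mul_sum]
      exact Finset.sum_congr rfl fun k _ => by ring
    rw [hPm] at hφ
    -- the first test function
    obtain ⟨φ₁, hφ₁⟩ : ∃ φ₁ : ι → ℝ, φ₁ = fun i => if i ∈ E then m else φ (Sum.inl i) := ⟨_, rfl⟩
    obtain ⟨ψ, hψ⟩ : ∃ ψ : κ → ℝ, ψ = fun k => φ (Sum.inr k) - m := ⟨_, rfl⟩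
    have hsplit : ∀ (g : ι → ℝ), ∑ i ∈ E, g i = ∑ i, (if i ∈ E then g i else 0) := by
      intro g
      rw [← Finset.sum_filter]
      refine Finset.sum_congr ?_ fun _ _ => rfl
      ext i
      simp
    have hsplitX : ∀ (g : ι → X), ∑ i ∈ E, g i = ∑ i, (if i ∈ E then g i else 0) := by
      intro g
      rw [← Finset.sum_filter]
      refine Finset.sum_congr ?_ fun _ _ => rfl
      ext i
      simp
    have a1 : ∑ i, w i * φ₁ i = 0 := by
      rw [← hφ, hP, hsplit, Finset.sum_mul, ← Finset.sum_add_distrib]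
      refine Finset.sum_congr rfl fun i _ => ?_
      rw [hφ₁]
      by_cases hi : i ∈ E <;> simp [hi]
    have a2 : ∑ k, w' k * ψ k = 0 := by
      have : ∑ k, w' k * ψ k = ∑ k, w' k * φ (Sum.inr k) - (∑ k, w' k) * m := by
        rw [Finset.sum_mul, ← Finset.sum_sub_distrib]
        refine Finset.sum_congr rfl fun k _ => ?_
        rw [hψ]
        ring
      rw [this, h'.w1, ← hm]
      ring
    have b1 : ∑ i, w i * φ₁ i ^ 2 = ∑ i, (if i ∈ E then 0 else w i) * φ (Sum.inl i) ^ 2 + P * m ^ 2 := by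
      rw [hP, hsplit, Finset.sum_mul, ← Finset.sum_add_distrib]
      refine Finset.sum_congr rfl fun i _ => ?_
      rw [hφ₁]
      by_cases hi : i ∈ E <;> simp [hi]
    have b2 : ∑ k, w' k * ψ k ^ 2 = ∑ k, w' k * φ (Sum.inr k) ^ 2 - m ^ 2 := by
      have : ∑ k, w' k * ψ k ^ 2 =
          ∑ k, w' k * φ (Sum.inr k) ^ 2 - 2 * m * ∑ k, w' k * φ (Sum.inr k) + (∑ k, w' k) * m ^ 2 := by
        rw [Finset.sum_mul, Finset.mul_sum, ← Finset.sum_sub_distrib, ← Finset.sum_add_distrib]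
        refine Finset.sum_congr rfl fun k _ => ?_
        rw [hψ]
        ring
      rw [this, h'.w1, ← hm]
      ring
    have c1 : ∑ i, (w i * φ₁ i) • ξ i =
        ∑ i, ((if i ∈ E then 0 else w i) * φ (Sum.inl i)) • ξ i + m • ∑ i ∈ E, w i • ξ i := by
      rw [hsplitX, Finset.smul_sum, ← Finset.sum_add_distrib]
      refine Finset.sum_congr rfl fun i _ => ?_
      rw [hφ₁]
      by_cases hi : i ∈ E
      · simp [hi, smul_smul, mul_comm]
      · simp [hi]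
    have c2 : ∑ k, (w' k * ψ k) • ξ' k = ∑ k, (w' k * φ (Sum.inr k)) • ξ' k - m • p := by
      rw [← h'.mean, Finset.smul_sum, ← Finset.sum_sub_distrib]
      refine Finset.sum_congr rfl fun k _ => ?_
      rw [hψ, smul_smul, ← sub_smul]
      congr 1
      ring
    have c3 : ∑ k, (P * w' k * φ (Sum.inr k)) • (ξ' k - dE) =
        P • ∑ k, (w' k * ψ k) • ξ' k + m • ∑ i ∈ E, w i • ξ i := by
      have e1 : ∑ k, (P * w' k * φ (Sum.inr k)) • (ξ' k - dE) =
          P • (∑ k, (w' k * φ (Sum.inr k)) • ξ' k - m • dE) := by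
        rw [hm, Finset.sum_smul, ← Finset.sum_sub_distrib, Finset.smul_sum]
        refine Finset.sum_congr rfl fun k _ => ?_
        rw [← smul_sub, smul_smul, mul_assoc]
      rw [e1, c2, ← hpE]
      module
    have hA : 0 ≤ ∑ i, w i * φ₁ i ^ 2 := Finset.sum_nonneg fun i _ => mul_nonneg (h.w0 i) (sq_nonneg _)
    have hB : 0 ≤ ∑ k, w' k * ψ k ^ 2 := Finset.sum_nonneg fun k _ => mul_nonneg (h'.w0 k) (sq_nonneg _)
    have hU := h.wv φ₁ a1
    have hV := h'.wv ψ a2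
    rw [Fintype.sum_sum_type, Fintype.sum_sum_type]
    simp only [Sum.elim_inl, Sum.elim_inr]
    have d1 : ∑ i, ((if i ∈ E then 0 else w i) * φ (Sum.inl i)) • ξ i +
        ∑ k, (P * w' k * φ (Sum.inr k)) • (ξ' k - dE) = ∑ i, (w i * φ₁ i) • ξ i + P • ∑ k, (w' k * ψ k) • ξ' k := by
      rw [c1, c3]
      abel
    have d2 : ∑ i, (if i ∈ E then 0 else w i) * φ (Sum.inl i) ^ 2 + ∑ k, P * w' k * φ (Sum.inr k) ^ 2 =
        ∑ i, w i * φ₁ i ^ 2 + P * ∑ k, w' k * ψ k ^ 2 := by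
      have e1 : ∑ k, P * w' k * φ (Sum.inr k) ^ 2 = P * ∑ k, w' k * φ (Sum.inr k) ^ 2 := by
        rw [Finset.mul_sum]
        exact Finset.sum_congr rfl fun k _ => by ring
      rw [b1, b2, e1]
      ring
    rw [d1, d2]
    have n1 : ‖∑ i, (w i * φ₁ i) • ξ i + P • ∑ k, (w' k * ψ k) • ξ' k‖ ≤
        ‖∑ i, (w i * φ₁ i) • ξ i‖ + P * ‖∑ k, (w' k * ψ k) • ξ' k‖ := by
      refine (norm_add_le _ _).trans_eq ?_
      rw [norm_smul, Real.norm_of_nonneg hP0.le]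
    refine (pow_le_pow_left₀ (norm_nonneg _) n1 2).trans ?_
    exact glue_num h.s0 h'.s0 hA hB hP0.le hU hV

end Pool.Agent.Lib.MP_b6bd4b_an.SB
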