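import Pool.Agent.Lib.MP_b6bd4b_an.SB.Bas
import Pool.Agent.Lib.MP_b6bd4b_an.SB.Glu

/-!
Module Col: collapsing a part `E` of a representation to its mean `p` and continuing from `p`.

PLAN. Let `dE = P⁻¹ • ∑_E w • δ`. Given `η > 0` take by `ev_near` a representation `(κ, w', ξ', δ', s')` of `p` with gain `> ev p - η`, and `glue` it
(module Glu; `classical`). `le_ev` for the glued representation; compute its gain (`Fintype.sum_sum_type`, `Sum.elim_inl`, `Sum.elim_inr`):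
energy `∑ w ‖T(ξ+δ)‖² - ∑_E w ‖T(ξ+δ)‖² + P ∑ w' ‖T(ξ'+δ')‖²`, and `∑_E w ‖T(ξ+δ)‖² = P ‖T p‖² + ∑_E w ‖T(ξ+δ-p)‖²` (inner product, `∑_E w • T(ξ+δ-p) = 0`);
penalty `a (s + P s') + b (∑_{∉E} w ‖δ‖ + P ∑ w' ‖δ' + dE‖) ≤ a s + b ∑ w ‖δ‖ + P (a s' + b ∑ w' ‖δ'‖)` because `P ‖dE‖ ≤ ∑_E w ‖δ‖`. Hence
`ev x ≥ gain - ∑_E w ‖T(ξ+δ-p)‖² + P (ev p - η)`; let `η → 0` (`le_of_forall_pos_le_add`).
-/

namespace Pool.Agent.Lib.MP_b6bd4b_an.SB

open Finset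

variable {X : Type*} [NormedAddCommGroup X] [NormedSpace ℝ X] {d : ℕ}

private theorem Col_sum {ι : Type} [Fintype ι] (E : Finset ι) [DecidablePred (· ∈ E)] (w f : ι → ℝ) :
    ∑ i, (if i ∈ E then 0 else w i) * f i = ∑ i, w i * f i - ∑ i ∈ E, w i * f i := by
  rw [eq_sub_iff_add_eq]
  have h : ∑ i ∈ E, w i * f i = ∑ i, (if i ∈ E then w i * f i else 0) := by
    rw [← Finset.sum_filter]
    refine Finset.sum_congr ?_ fun _ _ => rfl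
    ext i
    simp
  rw [h, ← Finset.sum_add_distrib]
  refine Finset.sum_congr rfl fun i _ => ?_
  by_cases hi : i ∈ E <;> simp [hi]

private theorem Col_var {ι : Type} (E : Finset ι) (w : ι → ℝ) (v : ι → Eu d) (P : ℝ)
    (hP : P = ∑ i ∈ E, w i) (t : Eu d) (ht : P • t = ∑ i ∈ E, w i • v i) :
    ∑ i ∈ E, w i * ‖v i‖ ^ 2 = P * ‖t‖ ^ 2 + ∑ i ∈ E, w i * ‖v i - t‖ ^ 2 := by
  have h1 : ∑ i ∈ E, w i * ‖v i - t‖ ^ 2 =
      ∑ i ∈ E, w i * ‖v i‖ ^ 2 - 2 * inner ℝ (∑ i ∈ E, w i • v i) t + (∑ i ∈ E, w i) * ‖t‖ ^ 2 := by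
    rw [sum_inner, Finset.mul_sum, Finset.sum_mul, ← Finset.sum_sub_distrib, ← Finset.sum_add_distrib]
    refine Finset.sum_congr rfl fun i _ => ?_
    rw [norm_sub_sq_real, real_inner_smul_left]
    ring
  rw [h1, ← ht, ← hP, real_inner_smul_left, real_inner_self_eq_norm_sq]
  ring

theorem collapse {ι : Type} [Fintype ι] (T : X →L[ℝ] Eu d) (C : Set X) (hC : ∀ y ∈ C, ‖T y‖ ≤ 1)
    (a b l : ℝ) (ha : 0 ≤ a) (hb : 0 ≤ b) (hl : 0 ≤ l) (x : X)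
    (w : ι → ℝ) (ξ δ : ι → X) (s : ℝ) (h : IsRep C x w ξ δ s)
    (E : Finset ι) (P : ℝ) (hP : P = ∑ i ∈ E, w i) (hP0 : 0 < P)
    (p : X) (hp : P • p = ∑ i ∈ E, w i • (ξ i + δ i)) (hpC : p ∈ C) :
    P * ev T C a b l p ≤ ev T C a b l x - gain T a b l x w ξ δ s +
      ∑ i ∈ E, w i * ‖T (ξ i + δ i - p)‖ ^ 2 := by
  classical
  refine le_of_forall_pos_le_add fun ε hε => ?_
  obtain ⟨κ, inst, w', ξ', δ', s', h', hg⟩ := ev_near T C a b l p hpC (ε / P) (div_pos hε hP0)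
  obtain ⟨dE, hdE0⟩ : ∃ dE : X, dE = P⁻¹ • ∑ i ∈ E, w i • δ i := ⟨_, rfl⟩
  have hdE : P • dE = ∑ i ∈ E, w i • δ i := by
    rw [hdE0, smul_smul, mul_inv_cancel₀ hP0.ne', one_smul]
  have hrep := glue C x w ξ δ s h E P hP hP0 p dE hp hdE w' ξ' δ' s' h'
  have hev := le_ev T C hC a b l ha hb hl x _ _ _ _ hrep
  have e1 : ∀ k, ξ' k - dE + (δ' k + dE) = ξ' k + δ' k := fun k => by abel
  have e2 : ∑ k, P * w' k * ‖T (ξ' k + δ' k)‖ ^ 2 = P * ∑ k, w' k * ‖T (ξ' k + δ' k)‖ ^ 2 := by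
    rw [Finset.mul_sum]
    exact Finset.sum_congr rfl fun k _ => by ring
  have e3 : ∑ k, P * w' k * ‖δ' k + dE‖ ≤ P * ∑ k, w' k * ‖δ' k‖ + ∑ i ∈ E, w i * ‖δ i‖ := by
    have h1 : ∑ k, P * w' k * ‖δ' k + dE‖ ≤ P * ∑ k, w' k * ‖δ' k‖ + P * ‖dE‖ := by
      have h2 : P * ∑ k, w' k * ‖δ' k‖ + P * ‖dE‖ = ∑ k, P * w' k * (‖δ' k‖ + ‖dE‖) := by
        have h3 : P * ‖dE‖ = P * ((∑ k, w' k) * ‖dE‖) := by rw [h'.w1, one_mul]
        rw [h3, ← mul_add, Finset.sum_mul, ← Finset.sum_add_distrib, Finset.mul_sum]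
        exact Finset.sum_congr rfl fun k _ => by ring
      rw [h2]
      exact Finset.sum_le_sum fun k _ =>
        mul_le_mul_of_nonneg_left (norm_add_le _ _) (mul_nonneg hP0.le (h'.w0 k))
    have h2 : P * ‖dE‖ ≤ ∑ i ∈ E, w i * ‖δ i‖ := by
      have h3 : P * ‖dE‖ = ‖P • dE‖ := by rw [norm_smul, Real.norm_of_nonneg hP0.le]
      rw [h3, hdE]
      refine (norm_sum_le _ _).trans (le_of_eq ?_)
      exact Finset.sum_congr rfl fun i _ => by rw [norm_smul, Real.norm_of_nonneg (h.w0 i)]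
    linarith
  have e4 : ∑ i ∈ E, w i * ‖T (ξ i + δ i)‖ ^ 2 = P * ‖T p‖ ^ 2 +
      ∑ i ∈ E, w i * ‖T (ξ i + δ i - p)‖ ^ 2 := by
    have h1 := Col_var E w (fun i => T (ξ i + δ i)) P hP (T p) (by
      rw [← map_smul, hp, map_sum]
      exact Finset.sum_congr rfl fun i _ => by rw [map_smul])
    rw [h1]
    congr 1
    exact Finset.sum_congr rfl fun i _ => by rw [map_sub]
  have hgP : P * ev T C a b l p - ε < P * gain T a b l p w' ξ' δ' s' := by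
    have h1 := mul_lt_mul_of_pos_left hg hP0
    rw [mul_sub, mul_div_cancel₀ _ hP0.ne'] at h1
    exact h1
  unfold gain at hev hgP ⊢
  rw [Fintype.sum_sum_type, Fintype.sum_sum_type] at hev
  simp only [Sum.elim_inl, Sum.elim_inr, e1] at hev
  rw [Col_sum, Col_sum, e2, e4] at hev
  have hlb := mul_le_mul_of_nonneg_left e3 (mul_nonneg hl hb)
  nlinarith [hev, hgP, hlb]

end Pool.Agent.Lib.MP_b6bd4b_an.SB
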