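import Pool.Agent.Lib.MP_b6bd4b_an.SB.Lim

/-!
Module Core (helper79): the point `p` near `x0` with `ev 1 p ≤ 0`.
-/

namespace Pool.Agent.Lib.MP_b6bd4b_an.SB

open Finset

/-- The point `p`: near `x0`, `‖T p‖ ≥ 1/2`, and no representation of `p` has positive gain. -/
theorem core (d : ℕ) (hd : 1 ≤ d) (m : ℝ) (hm0 : 0 < m) (hm1 : m ≤ 1) (a : ℝ) (ha0 : 0 < a)
    (ha1 : a ≤ 1) : ∃ η : ℝ, 0 < η ∧
    ∀ (X : Type*) [NormedAddCommGroup X] [NormedSpace ℝ X] [CompleteSpace X]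
      (T : X →L[ℝ] Eu d), ‖T‖ = 1 → ∀ x0 : X, ‖x0‖ ≤ 1 → 1 - η < ‖T x0‖ →
      ∃ p : X, ‖p‖ ≤ 1 ∧ ‖p - x0‖ ≤ m / 8 ∧ 1 / 2 ≤ ‖T p‖ ∧
        ev T (Metric.closedBall (0 : X) 1) a a 1 p ≤ 0 := by
  obtain ⟨B, hB⟩ : ∃ B : ℝ, B = (2 / a + 4 / a) * (1040 * d / a) ^ d * (6 * (d + 1)) ^ (d + 1) :=
    ⟨_, rfl⟩
  have hB0 : 0 < B := by
    have : (0 : ℝ) < d := by exact_mod_cast hd
    rw [hB]; positivity
  obtain ⟨q, hq⟩ : ∃ q : ℝ, q = m / (32 * (B + 1)) := ⟨_, rfl⟩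
  have hq0 : 0 < q := by rw [hq]; positivity
  have hq1 : q ≤ 1 / 32 := by
    rw [hq, div_le_div_iff₀ (by positivity) (by norm_num)]
    nlinarith
  have hq2 : 4 * B * q ≤ m / 8 := by
    rw [hq, mul_div_assoc', div_le_div_iff₀ (by positivity) (by norm_num)]
    nlinarith
  have hqq : q ^ 2 ≤ 1 / 1024 := by nlinarith
  refine ⟨q ^ 2 / 2, by positivity, ?_⟩
  intro X _ _ _ T hT x0 hx0 hTx0
  obtain ⟨C, hCdef⟩ : ∃ C : Set X, C = Metric.closedBall (0 : X) 1 := ⟨_, rfl⟩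
  rw [← hCdef]
  have hmem : ∀ y : X, y ∈ C ↔ ‖y‖ ≤ 1 := by
    intro y; rw [hCdef, mem_closedBall_zero_iff]
  have hC : ∀ y ∈ C, ‖T y‖ ≤ 1 := by
    intro y hy
    have h1 := T.le_opNorm y
    rw [hT, one_mul] at h1
    exact h1.trans ((hmem y).1 hy)
  have hCc : Convex ℝ C := by rw [hCdef]; exact convex_closedBall _ _
  have hCl : IsClosed C := by rw [hCdef]; exact Metric.isClosed_closedBall
  have hx0C : x0 ∈ C := (hmem x0).2 hx0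
  have hev : ev T C a a (1 / 2) x0 ≤ q ^ 2 := by
    have h1 := ev_le_one T C hC a a (1 / 2) ha0.le ha0.le (by norm_num) x0 hx0C
    have h2 : (1 - q ^ 2 / 2) ^ 2 ≤ ‖T x0‖ ^ 2 :=
      pow_le_pow_left₀ (by linarith) hTx0.le 2
    nlinarith [sq_nonneg (q ^ 2)]
  obtain ⟨p, hpC, hp1, hp2⟩ := limit hd T hT.le C hC hCc hCl a a ha0 ha1 ha0 ha1
    x0 hx0C (q ^ 2) (by positivity) (by linarith) hev
  rw [Real.sqrt_sq hq0.le, ← hB] at hp2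
  have hpx : ‖p - x0‖ ≤ m / 8 := hp2.trans hq2
  have hTp : 1 / 2 ≤ ‖T p‖ := by
    have h1 : ‖T (p - x0)‖ ≤ m / 8 := by
      have h2 := T.le_opNorm (p - x0)
      rw [hT, one_mul] at h2
      exact h2.trans hpx
    have h3 : ‖T x0‖ ≤ ‖T p‖ + ‖T (p - x0)‖ := by
      have h4 : T x0 = T p - T (p - x0) := by rw [← map_sub]; congr 1; abel
      rw [h4]; exact norm_sub_le _ _
    linarith
  exact ⟨p, (hmem p).1 hpC, hpx, hTp, hp1⟩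

end Pool.Agent.Lib.MP_b6bd4b_an.SB
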