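import Mathlib

/-!
Second order property B for Euclidean spaces. Definitions.

`IsRep C x w ξ δ s`: a finite random variable `ξ + δ` (weights `w`) with values in `C`; `ξ` has mean `x` and
weak variance at most `s`: `‖E[φ ξ]‖² ≤ s E[φ²]` for all `φ` of mean zero.
`gain`: `E‖T(ξ+δ)‖² - ‖T x‖² - l (a s + b E‖δ‖)`; `ev` is its supremum.
-/

namespace Pool.Agent.Lib.MP_b6bd4b_an.SB

open Finset

/-- Euclidean space of dimension `d`. -/
abbrev Eu (d : ℕ) := EuclideanSpace ℝ (Fin d)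

section

variable {X : Type*} [NormedAddCommGroup X] [NormedSpace ℝ X]

/-- A finite random variable `ξ + δ` in `C`, `ξ` of mean `x` and weak variance at most `s`. -/
structure IsRep {ι : Type} [Fintype ι] (C : Set X) (x : X) (w : ι → ℝ) (ξ δ : ι → X) (s : ℝ) : Prop where
  w0 : ∀ i, 0 ≤ w i
  w1 : ∑ i, w i = 1
  mean : ∑ i, w i • ξ i = x
  mem : ∀ i, ξ i + δ i ∈ C
  s0 : 0 ≤ s
  wv : ∀ φ : ι → ℝ, ∑ i, w i * φ i = 0 →
    ‖∑ i, (w i * φ i) • ξ i‖ ^ 2 ≤ s * ∑ i, w i * φ i ^ 2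

/-- Gain of `‖T ·‖²` minus `l` times the penalty `a s + b E‖δ‖`. -/
noncomputable def gain {d : ℕ} {ι : Type} [Fintype ι] (T : X →L[ℝ] Eu d) (a b l : ℝ) (x : X)
    (w : ι → ℝ) (ξ δ : ι → X) (s : ℝ) : ℝ :=
  ∑ i, w i * ‖T (ξ i + δ i)‖ ^ 2 - ‖T x‖ ^ 2 - l * (a * s + b * ∑ i, w i * ‖δ i‖)

/-- All gains at `x`. -/
def vals {d : ℕ} (T : X →L[ℝ] Eu d) (C : Set X) (a b l : ℝ) (x : X) : Set ℝ :=
  {v | ∃ (ι : Type) (_ : Fintype ι) (w : ι → ℝ) (ξ δ : ι → X) (s : ℝ),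
    IsRep C x w ξ δ s ∧ v = gain T a b l x w ξ δ s}

/-- The supremum of all gains at `x`. -/
noncomputable def ev {d : ℕ} (T : X →L[ℝ] Eu d) (C : Set X) (a b l : ℝ) (x : X) : ℝ :=
  sSup (vals T C a b l x)

end

end Pool.Agent.Lib.MP_b6bd4b_an.SB
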