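import Pool.Agent.Lib.MP_b6bd4b_an.SB.Def

/-!
Module Dsp: the mean `p` of a part `E` is not far from `x`.

PLAN. `φ i = (if i ∈ E then P⁻¹ else 0) - 1` has mean zero and `∑ w φ² = P⁻¹ - 1 ≤ P⁻¹`; `∑ (w φ) ξ = P⁻¹ ∑_E w ξ - x`. So `wv` gives
`‖P⁻¹ ∑_E w ξ - x‖² ≤ s P⁻¹`. And `‖P⁻¹ ∑_E w δ‖ ≤ P⁻¹ ∑ w ‖δ‖`. `p = P⁻¹ ∑_E w ξ + P⁻¹ ∑_E w δ`.
-/

namespace Pool.Agent.Lib.MP_b6bd4b_an.SB

open Finset

variable {X : Type*} [NormedAddCommGroup X] [NormedSpace ℝ X] {d : ℕ}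

private theorem dsp_mean {ι : Type} [Fintype ι] {C : Set X} {x : X}
    {w : ι → ℝ} {ξ δ : ι → X} {s : ℝ} (h : IsRep C x w ξ δ s)
    (E : Finset ι) {P : ℝ} (hP : P = ∑ i ∈ E, w i) (hP0 : 0 < P) :
    ‖P⁻¹ • ∑ i ∈ E, w i • ξ i - x‖ ≤ Real.sqrt (s / P) := by
  classical
  have hPne : P ≠ 0 := hP0.ne'
  set φ : ι → ℝ := fun i => (if i ∈ E then P⁻¹ else 0) - 1 with hφ
  have h1 : ∑ i, w i * φ i = 0 := by
    have : ∀ i, w i * φ i = (if i ∈ E then w i * P⁻¹ else 0) - w i := by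
      intro i; simp only [hφ]; split_ifs <;> ring
    rw [Finset.sum_congr rfl fun i _ => this i, Finset.sum_sub_distrib, h.w1, Finset.sum_ite_mem,
      Finset.univ_inter, ← Finset.sum_mul, ← hP, mul_inv_cancel₀ hPne, sub_self]
  have h2 : ∑ i, w i * φ i ^ 2 = P⁻¹ - 1 := by
    have : ∀ i, w i * φ i ^ 2 = (if i ∈ E then w i * (P⁻¹ ^ 2 - 2 * P⁻¹) else 0) + w i := by
      intro i; simp only [hφ]; split_ifs <;> ring
    rw [Finset.sum_congr rfl fun i _ => this i, Finset.sum_add_distrib, h.w1, Finset.sum_ite_mem,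
      Finset.univ_inter, ← Finset.sum_mul, ← hP]
    field_simp
    ring
  have h3 : ∑ i, (w i * φ i) • ξ i = P⁻¹ • ∑ i ∈ E, w i • ξ i - x := by
    have : ∀ i, (w i * φ i) • ξ i = (if i ∈ E then P⁻¹ • (w i • ξ i) else 0) - w i • ξ i := by
      intro i; simp only [hφ]; split_ifs
      · rw [smul_smul, ← sub_smul]; congr 1; ring
      · rw [zero_sub, mul_neg, mul_one, neg_smul, zero_sub]
    rw [Finset.sum_congr rfl fun i _ => this i, Finset.sum_sub_distrib, h.mean, Finset.sum_ite_mem,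
      Finset.univ_inter, ← Finset.smul_sum]
  have h4 := h.wv φ h1
  rw [h3, h2] at h4
  refine Real.le_sqrt_of_sq_le (h4.trans ?_)
  rw [div_eq_mul_inv]
  exact mul_le_mul_of_nonneg_left (by linarith) h.s0

theorem disp {ι : Type} [Fintype ι] (C : Set X) (x : X)
    (w : ι → ℝ) (ξ δ : ι → X) (s : ℝ) (h : IsRep C x w ξ δ s)
    (E : Finset ι) (P : ℝ) (hP : P = ∑ i ∈ E, w i) (hP0 : 0 < P)
    (p : X) (hp : P • p = ∑ i ∈ E, w i • (ξ i + δ i)) :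
    ‖p - x‖ ≤ Real.sqrt (s / P) + (∑ i, w i * ‖δ i‖) / P := by
  have hPne : P ≠ 0 := hP0.ne'
  have h1 : p = P⁻¹ • ∑ i ∈ E, w i • (ξ i + δ i) := by
    rw [← hp, smul_smul, inv_mul_cancel₀ hPne, one_smul]
  have h2 : p - x = (P⁻¹ • ∑ i ∈ E, w i • ξ i - x) + P⁻¹ • ∑ i ∈ E, w i • δ i := by
    rw [h1]
    simp only [smul_add, Finset.sum_add_distrib]
    abel
  have h3 : ‖P⁻¹ • ∑ i ∈ E, w i • δ i‖ ≤ (∑ i, w i * ‖δ i‖) / P := by
    rw [norm_smul, Real.norm_of_nonneg (inv_nonneg.2 hP0.le), div_eq_inv_mul]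
    refine mul_le_mul_of_nonneg_left ?_ (inv_nonneg.2 hP0.le)
    calc ‖∑ i ∈ E, w i • δ i‖ ≤ ∑ i ∈ E, ‖w i • δ i‖ := norm_sum_le _ _
      _ = ∑ i ∈ E, w i * ‖δ i‖ := Finset.sum_congr rfl fun i _ => by
          rw [norm_smul, Real.norm_of_nonneg (h.w0 i)]
      _ ≤ ∑ i, w i * ‖δ i‖ := Finset.sum_le_sum_of_subset_of_nonneg (Finset.subset_univ E)
          fun i _ _ => mul_nonneg (h.w0 i) (norm_nonneg _)
  rw [h2]
  exact (norm_add_le _ _).trans (add_le_add (dsp_mean h E hP hP0) h3)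

/-- The mean of a part lies in `C`, and its image is within `r` of the images of the part. -/
theorem part_mem {ι : Type} [Fintype ι] (C : Set X) (hCc : Convex ℝ C) (x : X)
    (w : ι → ℝ) (ξ δ : ι → X) (s : ℝ) (h : IsRep C x w ξ δ s)
    (E : Finset ι) (P : ℝ) (hP : P = ∑ i ∈ E, w i) (hP0 : 0 < P) (T : X →L[ℝ] Eu d) (r : ℝ)
    (hr : ∀ i ∈ E, ∀ j ∈ E, ‖T (ξ i + δ i) - T (ξ j + δ j)‖ ≤ r) :
    ∃ p ∈ C, P • p = ∑ i ∈ E, w i • (ξ i + δ i) ∧ ∀ i ∈ E, ‖T (ξ i + δ i - p)‖ ≤ r := by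
  have hPne : P ≠ 0 := hP0.ne'
  refine ⟨E.centerMass w (fun i => ξ i + δ i), ?_, ?_, ?_⟩
  · exact hCc.centerMass_mem (fun i _ => h.w0 i) (hP ▸ hP0) fun i _ => h.mem i
  · rw [Finset.centerMass, ← hP, smul_smul, mul_inv_cancel₀ hPne, one_smul]
  · intro i hi
    have h1 : E.centerMass w (fun j => T (ξ j + δ j)) ∈ Metric.closedBall (T (ξ i + δ i)) r := by
      refine (convex_closedBall _ _).centerMass_mem (fun j _ => h.w0 j) (hP ▸ hP0) fun j hj => ?_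
      rw [mem_closedBall_iff_norm]
      exact hr j hj i hi
    have h2 : T (E.centerMass w (fun i => ξ i + δ i)) = E.centerMass w (fun j => T (ξ j + δ j)) := by
      simp only [Finset.centerMass, map_smul, map_sum]
    rw [mem_closedBall_iff_norm'] at h1
    rw [map_sub, h2]
    exact h1

/-- The spread of the images. -/
theorem spread {ι : Type} [Fintype ι] (T : X →L[ℝ] Eu d) (hT : ‖T‖ ≤ 1) (C : Set X) (x : X) (hx : ‖T x‖ ≤ 1)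
    (w : ι → ℝ) (ξ δ : ι → X) (s : ℝ) (h : IsRep C x w ξ δ s) :
    ∑ i, w i * ‖T (ξ i + δ i) - T x‖ ^ 2 ≤
      (∑ i, w i * ‖T (ξ i + δ i)‖ ^ 2 - ‖T x‖ ^ 2) + 2 * ∑ i, w i * ‖δ i‖ := by
  have hT1 : ∀ y : X, ‖T y‖ ≤ ‖y‖ := fun y => by
    calc ‖T y‖ ≤ ‖T‖ * ‖y‖ := T.le_opNorm y
      _ ≤ 1 * ‖y‖ := mul_le_mul_of_nonneg_right hT (norm_nonneg _)
      _ = ‖y‖ := one_mul _
  have h1 : ∑ i, w i • T (ξ i + δ i) = T x + T (∑ i, w i • δ i) := by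
    rw [← h.mean, ← map_add, ← Finset.sum_add_distrib, map_sum]
    refine Finset.sum_congr rfl fun i _ => ?_
    rw [← smul_add, map_smul]
  have h2 : ∑ i, w i * ‖T (ξ i + δ i) - T x‖ ^ 2 =
      ∑ i, w i * ‖T (ξ i + δ i)‖ ^ 2 - 2 * inner ℝ (∑ i, w i • T (ξ i + δ i)) (T x) + ‖T x‖ ^ 2 := by
    rw [sum_inner, Finset.mul_sum, ← Finset.sum_sub_distrib]
    have : ‖T x‖ ^ 2 = ∑ i, w i * ‖T x‖ ^ 2 := by rw [← Finset.sum_mul, h.w1, one_mul]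
    conv_rhs => rw [this]
    rw [← Finset.sum_add_distrib]
    refine Finset.sum_congr rfl fun i _ => ?_
    rw [norm_sub_sq_real, real_inner_smul_left]
    ring
  have h3 : ‖∑ i, w i • δ i‖ ≤ ∑ i, w i * ‖δ i‖ := by
    refine (norm_sum_le _ _).trans_eq (Finset.sum_congr rfl fun i _ => ?_)
    rw [norm_smul, Real.norm_of_nonneg (h.w0 i)]
  have h4 : -inner ℝ (T (∑ i, w i • δ i)) (T x) ≤ ∑ i, w i * ‖δ i‖ := by
    calc -inner ℝ (T (∑ i, w i • δ i)) (T x) ≤ |inner ℝ (T (∑ i, w i • δ i)) (T x)| := neg_le_abs _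
      _ ≤ ‖T (∑ i, w i • δ i)‖ * ‖T x‖ := abs_real_inner_le_norm _ _
      _ ≤ ‖T (∑ i, w i • δ i)‖ * 1 := mul_le_mul_of_nonneg_left hx (norm_nonneg _)
      _ ≤ ∑ i, w i * ‖δ i‖ := by rw [mul_one]; exact (hT1 _).trans h3
  rw [h2, h1, inner_add_left, real_inner_self_eq_norm_sq]
  linarith

end Pool.Agent.Lib.MP_b6bd4b_an.SB
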