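import Pool.Agent.Lib.MP_b6bd4b_an.SB.Stp

/-!
Module Lim: iteration of `step` and the limit point.

PLAN. `θ = 1 - 1/(3 (d+1))`, `λ_j = 1 - θ^j/2` (`λ_0 = 1/2`), `om_j = λ_{j+1} - λ_j = θ^j/(6 (d+1))`. By recursion (subtype `{q : X × ℕ // ...}` or `exists_seq_...`; or
`Nat.rec` with `choose`) points `p_j ∈ C`, `ev λ_j p_j ≤ ρ/4^j`, `‖p_{j+1} - p_j‖ ≤ A √(ρ/4^j)/om_j^(d+1) = A (6(d+1))^(d+1) √ρ ((1/2) θ^(-(d+1)))^j ≤ B √ρ (3/4)^j`
(`θ^(d+1) ≥ 1 - (d+1)/(3(d+1)) = 2/3`, `one_add_mul_le_pow`). So `p_j → p` (`cauchySeq_of_le_geometric`), `‖p - x0‖ ≤ 4 B √ρ` (`dist_le_of_le_geometric_of_tendsto₀`), `p ∈ C`.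
`ev 1 p ≤ ev 1 p_j + (b+2) ‖p - p_j‖ ≤ ev λ_j p_j + ... → 0` (`ev_lip`, `ev_anti`).
-/

namespace Pool.Agent.Lib.MP_b6bd4b_an.SB

open Finset

variable {X : Type*} [NormedAddCommGroup X] [NormedSpace ℝ X] {d : ℕ}

private theorem Lim_theta (d : ℕ) : (2 : ℝ) / 3 ≤ (1 - 1 / (3 * ((d : ℝ) + 1))) ^ (d + 1) := by
  have hd : (0 : ℝ) < (d : ℝ) + 1 := by positivity
  have h1 : (-2 : ℝ) ≤ -(1 / (3 * ((d : ℝ) + 1))) := by
    have : 1 / (3 * ((d : ℝ) + 1)) ≤ 1 := by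
      rw [div_le_one (by positivity)]
      nlinarith [(Nat.cast_nonneg d : (0 : ℝ) ≤ d)]
    linarith
  have h2 := one_add_mul_le_pow h1 (d + 1)
  have h3 : (1 : ℝ) + ((d + 1 : ℕ) : ℝ) * -(1 / (3 * ((d : ℝ) + 1))) = 2 / 3 := by
    push_cast
    field_simp
    ring
  rw [h3] at h2
  simpa [sub_eq_add_neg] using h2

theorem limit [CompleteSpace X] (hd : 1 ≤ d) (T : X →L[ℝ] Eu d) (hT : ‖T‖ ≤ 1) (C : Set X)
    (hC : ∀ y ∈ C, ‖T y‖ ≤ 1) (hCc : Convex ℝ C) (hCl : IsClosed C)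
    (a b : ℝ) (ha : 0 < a) (ha1 : a ≤ 1) (hb : 0 < b) (hb1 : b ≤ 1)
    (x0 : X) (hx0 : x0 ∈ C) (ρ : ℝ) (hρ0 : 0 < ρ) (hρ1 : ρ ≤ 1) (h : ev T C a b (1 / 2) x0 ≤ ρ) :
    ∃ p ∈ C, ev T C a b 1 p ≤ 0 ∧
      ‖p - x0‖ ≤ 4 * ((2 / a + 4 / b) * (1040 * d / b) ^ d * (6 * (d + 1)) ^ (d + 1)) * Real.sqrt ρ := by
  set θ : ℝ := 1 - 1 / (3 * ((d : ℝ) + 1)) with hθ
  have hd0 : (0 : ℝ) < (d : ℝ) + 1 := by positivity
  have hq : 1 / (3 * ((d : ℝ) + 1)) ≤ 1 / 3 := by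
    apply one_div_le_one_div_of_le (by norm_num)
    nlinarith [(Nat.cast_nonneg d : (0 : ℝ) ≤ d)]
  have hq0 : 0 < 1 / (3 * ((d : ℝ) + 1)) := by positivity
  have hθ0 : 0 < θ := by rw [hθ]; linarith
  have hθ1 : θ < 1 := by rw [hθ]; linarith
  have hθp : (2 : ℝ) / 3 ≤ θ ^ (d + 1) := Lim_theta d
  set lam : ℕ → ℝ := fun j => 1 - θ ^ j / 2 with hlam
  have hpow1 : ∀ j, θ ^ j ≤ 1 := fun j => pow_le_one₀ hθ0.le hθ1.le
  have hpow0 : ∀ j, 0 < θ ^ j := fun j => pow_pos hθ0 j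
  have hlam0 : ∀ j, 1 / 2 ≤ lam j := fun j => by simp only [hlam]; linarith [hpow1 j]
  have hlam1 : ∀ j, lam j ≤ 1 := fun j => by simp only [hlam]; linarith [hpow0 j]
  have hom : ∀ j, lam j + θ ^ j / (6 * ((d : ℝ) + 1)) = lam (j + 1) := by
    intro j
    simp only [hlam, pow_succ]
    rw [hθ]
    field_simp
    ring
  set B : ℝ := (2 / a + 4 / b) * (1040 * d / b) ^ d * (6 * (d + 1)) ^ (d + 1) with hB
  have hB0 : 0 ≤ B := by positivity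
  have hρj0 : ∀ j : ℕ, 0 < ρ / 4 ^ j := fun j => by positivity
  have hρj1 : ∀ j : ℕ, ρ / 4 ^ j ≤ 1 := fun j => by
    rw [div_le_one (by positivity)]
    exact hρ1.trans (one_le_pow₀ (by norm_num))
  have hbd : ∀ j : ℕ, (2 / a + 4 / b) * (1040 * d / b) ^ d * Real.sqrt (ρ / 4 ^ j) /
      (θ ^ j / (6 * ((d : ℝ) + 1))) ^ (d + 1) ≤ B * Real.sqrt ρ * (3 / 4) ^ j := by
    intro j
    have h1 : Real.sqrt (ρ / 4 ^ j) = Real.sqrt ρ / 2 ^ j := by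
      rw [Real.sqrt_div hρ0.le]
      congr 1
      rw [show (4 : ℝ) ^ j = (2 ^ j) ^ 2 by rw [← pow_mul, mul_comm, pow_mul]; norm_num]
      exact Real.sqrt_sq (by positivity)
    have h2 : (2 / a + 4 / b) * (1040 * d / b) ^ d * Real.sqrt (ρ / 4 ^ j) /
        (θ ^ j / (6 * ((d : ℝ) + 1))) ^ (d + 1) = B * Real.sqrt ρ * (1 / (2 * θ ^ (d + 1))) ^ j := by
      have e1 : (θ ^ j / (6 * ((d : ℝ) + 1))) ^ (d + 1) = (θ ^ (d + 1)) ^ j / (6 * ((d : ℝ) + 1)) ^ (d + 1) := by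
        rw [div_pow, ← pow_mul, ← pow_mul, mul_comm j (d + 1)]
      have e2 : (1 / (2 * θ ^ (d + 1))) ^ j = 1 / (2 ^ j * (θ ^ (d + 1)) ^ j) := by
        rw [div_pow, one_pow, mul_pow]
      have e3 : (θ ^ (d + 1)) ^ j ≠ 0 := pow_ne_zero _ (pow_ne_zero _ hθ0.ne')
      have e4 : (6 * ((d : ℝ) + 1)) ^ (d + 1) ≠ 0 := pow_ne_zero _ (by positivity)
      rw [h1, hB, e1, e2]
      generalize (2 / a + 4 / b) * (1040 * d / b) ^ d = K
      generalize (θ ^ (d + 1)) ^ j = t at e3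
      generalize (6 * ((d : ℝ) + 1)) ^ (d + 1) = M at e4
      field_simp
    rw [h2]
    refine mul_le_mul_of_nonneg_left ?_ (by positivity)
    refine pow_le_pow_left₀ (by positivity) ?_ j
    rw [div_le_div_iff₀ (by positivity) (by norm_num)]
    linarith
  have hstep : ∀ (j : ℕ) (q : X), (q ∈ C ∧ ev T C a b (lam j) q ≤ ρ / 4 ^ j) →
      ∃ p, (p ∈ C ∧ ev T C a b (lam (j + 1)) p ≤ ρ / 4 ^ (j + 1)) ∧
        ‖p - q‖ ≤ B * Real.sqrt ρ * (3 / 4) ^ j := by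
    rintro j q ⟨hqC, hqe⟩
    obtain ⟨p, hpC, hpe, hpn⟩ := step hd T hT C hC hCc a b ha ha1 hb hb1 (lam j)
      (θ ^ j / (6 * ((d : ℝ) + 1))) (hlam0 j) (div_pos (hpow0 j) (by positivity))
      (by rw [hom j]; exact hlam1 _) q hqC (ρ / 4 ^ j) (hρj0 j) (hρj1 j) hqe
    refine ⟨p, ⟨hpC, ?_⟩, hpn.trans (hbd j)⟩
    rw [← hom j, show ρ / 4 ^ (j + 1) = ρ / 4 ^ j / 4 by rw [pow_succ, div_div]]
    exact hpe
  choose! F hF using hstep
  set p : ℕ → X := fun n => Nat.rec x0 (fun j q => F j q) n with hp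
  have hp0 : p 0 = x0 := rfl
  have hps : ∀ j, p (j + 1) = F j (p j) := fun j => rfl
  have hpj : ∀ j, p j ∈ C ∧ ev T C a b (lam j) (p j) ≤ ρ / 4 ^ j := by
    intro j
    induction j with
    | zero =>
      refine ⟨hx0, ?_⟩
      have : lam 0 = 1 / 2 := by simp only [hlam, pow_zero]; norm_num
      rw [this, pow_zero, div_one]
      exact h
    | succ j ih =>
      rw [hps]
      exact (hF j (p j) ih).1
  have hdist : ∀ j, dist (p j) (p (j + 1)) ≤ B * Real.sqrt ρ * (3 / 4) ^ j := by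
    intro j
    rw [dist_comm, dist_eq_norm, hps]
    exact (hF j (p j) (hpj j)).2
  have hcau : CauchySeq p := cauchySeq_of_le_geometric (3 / 4) (B * Real.sqrt ρ) (by norm_num) hdist
  obtain ⟨q, hqt⟩ := cauchySeq_tendsto_of_complete hcau
  have hqC : q ∈ C := hCl.mem_of_tendsto hqt (Filter.Eventually.of_forall fun j => (hpj j).1)
  refine ⟨q, hqC, ?_, ?_⟩
  · have h1 : ∀ j, ev T C a b 1 q ≤ ρ / 4 ^ j + (b + 2) * ‖q - p j‖ := by
      intro j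
      have h2 := ev_lip T hT C hC a b 1 ha.le hb.le zero_le_one le_rfl q (p j) hqC (hpj j).1
      have h3 := ev_anti T C hC a b (lam j) 1 ha.le hb.le (by linarith [hlam0 j]) (hlam1 j) (p j) (hpj j).1
      linarith [(hpj j).2]
    have h2 : Filter.Tendsto (fun j : ℕ => ρ / 4 ^ j + (b + 2) * ‖q - p j‖) Filter.atTop (nhds 0) := by
      have h3 : Filter.Tendsto (fun j : ℕ => ρ / (4 : ℝ) ^ j) Filter.atTop (nhds 0) := by
        have h4 := (tendsto_pow_atTop_nhds_zero_of_lt_one (r := (1 / 4 : ℝ)) (by norm_num) (by norm_num)).const_mul ρ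
        rw [mul_zero] at h4
        refine h4.congr fun j => ?_
        rw [one_div, inv_pow, div_eq_mul_inv]
      have h5 : Filter.Tendsto (fun j : ℕ => (b + 2) * ‖q - p j‖) Filter.atTop (nhds 0) := by
        have h6 : Filter.Tendsto (fun j : ℕ => ‖q - p j‖) Filter.atTop (nhds 0) := by
          have h7 := (tendsto_const_nhds (x := q)).sub hqt
          rw [sub_self] at h7
          simpa using h7.norm
        simpa using h6.const_mul (b + 2)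
      simpa using h3.add h5
    exact ge_of_tendsto' h2 h1
  · have h1 := dist_le_of_le_geometric_of_tendsto₀ (3 / 4) (B * Real.sqrt ρ) (by norm_num) hdist hqt
    rw [hp0, dist_comm, dist_eq_norm] at h1
    refine h1.trans (le_of_eq ?_)
    ring

end Pool.Agent.Lib.MP_b6bd4b_an.SB
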