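import Mathlib

/-!
Module Pie: Hahn-Banach of Pietsch type. An inequality for all finite convex combinations, with the
quadratic quantity `sup_{‖g‖ ≤ 1} ∑ w g(y - p)²`, gives a dominated positive quadratic form.
-/

namespace Pool.Agent.Lib.MP_b6bd4b_an.SB

open Finset BoundedContinuousFunction

section

variable (X : Type*) [NormedAddCommGroup X] [NormedSpace ℝ X]

/-- The unit ball of the dual. -/
private abbrev Du : Type _ := {g : X →L[ℝ] ℝ // ‖g‖ ≤ 1}

end

variable {X : Type*} [NormedAddCommGroup X] [NormedSpace ℝ X]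

private theorem du_le (g : Du X) (u : X) : |g.1 u| ≤ ‖u‖ := by
  have h := g.1.le_opNorm u
  rw [Real.norm_eq_abs] at h
  have h2 := g.2
  nlinarith [norm_nonneg u]

/-- `g ↦ g u * g v` on the unit ball of the dual. -/
private noncomputable def prd (u v : X) : (Du X) →ᵇ ℝ :=
  BoundedContinuousFunction.ofNormedAddCommGroup (fun g : Du X => g.1 u * g.1 v)
    (by fun_prop) (‖u‖ * ‖v‖) (fun g => by
      rw [Real.norm_eq_abs, abs_mul]
      exact mul_le_mul (du_le g u) (du_le g v) (abs_nonneg _) (norm_nonneg _))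

private theorem prd_apply (u v : X) (g : Du X) : prd u v g = g.1 u * g.1 v := rfl

theorem pietsch (C : Set X) (a b : ℝ) (ha : 0 < a) (hb : 0 ≤ b) (p : X) (hp : p ∈ C) (Φ : X → ℝ)
    (hΦ : Φ p = 0)
    (H : ∀ (ι : Type) [Fintype ι] (w : ι → ℝ) (y : ι → X) (σ : ℝ), (∀ i, 0 ≤ w i) →
      ∑ i, w i = 1 → (∀ i, y i ∈ C) →
      (∀ g : X →L[ℝ] ℝ, ‖g‖ ≤ 1 → ∑ i, w i * g (y i - p) ^ 2 ≤ σ) →
      ∑ i, w i * Φ (y i) ≤ a * σ + b * ‖∑ i, w i • (y i - p)‖) :
    ∃ (B : X →L[ℝ] X →L[ℝ] ℝ) (f : X →L[ℝ] ℝ), (∀ u v, B u v = B v u) ∧ (∀ u, 0 ≤ B u u) ∧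
      (∀ u v, |B u v| ≤ ‖u‖ * ‖v‖) ∧
      (∀ (n : ℕ) (u : Fin n → X) (σ : ℝ), (∀ g : X →L[ℝ] ℝ, ‖g‖ ≤ 1 → ∑ k, g (u k) ^ 2 ≤ σ) →
        ∑ k, B (u k) (u k) ≤ σ) ∧
      ‖f‖ ≤ b ∧ ∀ y ∈ C, Φ y ≤ a * B (y - p) (y - p) + f (y - p) := by
  classical
  set A : Set (((Du X) →ᵇ ℝ) × X × ℝ) :=
    {z | ∃ σ, (∀ g, z.1 g ≤ σ) ∧ a * σ + b * ‖z.2.1‖ < z.2.2} with hA
  set K0 : Set (((Du X) →ᵇ ℝ) × X × ℝ) := {z | ∃ y ∈ C, z = (prd (y - p) (y - p), y - p, Φ y)} with hK0
  -- `A` is convex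
  have hAc : Convex ℝ A := by
    rintro ⟨F, m, t⟩ ⟨σ, h1, h2⟩ ⟨F', m', t'⟩ ⟨σ', h1', h2'⟩ α β hα hβ hαβ
    refine ⟨α * σ + β * σ', fun g => ?_, ?_⟩
    · change α * F g + β * F' g ≤ α * σ + β * σ'
      have e1 := mul_le_mul_of_nonneg_left (h1 g) hα
      have e2 := mul_le_mul_of_nonneg_left (h1' g) hβ
      exact add_le_add e1 e2
    · change a * (α * σ + β * σ') + b * ‖α • m + β • m'‖ < α * t + β * t'
      change a * σ + b * ‖m‖ < t at h2
      change a * σ' + b * ‖m'‖ < t' at h2'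
      have e3 : ‖α • m + β • m'‖ ≤ α * ‖m‖ + β * ‖m'‖ := by
        refine (norm_add_le _ _).trans ?_
        rw [norm_smul, norm_smul, Real.norm_of_nonneg hα, Real.norm_of_nonneg hβ]
      have e4 := mul_le_mul_of_nonneg_left e3 hb
      rcases hα.eq_or_lt with h0 | h0
      · have hβ1 : β = 1 := by linarith
        rw [← h0, hβ1] at e4 ⊢
        simp only [zero_mul, zero_add, one_mul, zero_smul, one_smul] at e4 ⊢
        linarith
      · nlinarith [mul_lt_mul_of_pos_left h2 h0, mul_le_mul_of_nonneg_left h2'.le hβ]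
  -- `A` is open
  have hAo : IsOpen A := by
    rw [Metric.isOpen_iff]
    rintro ⟨F, m, t⟩ ⟨σ, h1, h2⟩
    change a * σ + b * ‖m‖ < t at h2
    have hab : 0 < a + b + 1 := by positivity
    set δ := t - (a * σ + b * ‖m‖) with hδ
    have hδ0 : 0 < δ := by rw [hδ]; linarith
    refine ⟨δ / (a + b + 1), by positivity, ?_⟩
    rintro ⟨F', m', t'⟩ hz
    rw [Metric.mem_ball] at hz
    set ρ := dist (F', m', t') (F, m, t) with hρ
    have d1 : dist F' F ≤ ρ := by rw [hρ, Prod.dist_eq]; exact le_max_left _ _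
    have d2 : dist (m', t') (m, t) ≤ ρ := by rw [hρ, Prod.dist_eq]; exact le_max_right _ _
    have d3 : dist m' m ≤ ρ := le_trans (by rw [Prod.dist_eq]; exact le_max_left _ _) d2
    have d4 : dist t' t ≤ ρ := le_trans (by rw [Prod.dist_eq]; exact le_max_right _ _) d2
    rw [lt_div_iff₀ hab] at hz
    refine ⟨σ + ρ, fun g => ?_, ?_⟩
    · have e1 : dist (F' g) (F g) ≤ ρ := (BoundedContinuousFunction.dist_coe_le_dist g).trans d1
      rw [Real.dist_eq] at e1
      have := (abs_le.1 e1).2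
      have := h1 g
      change F g ≤ σ at this
      change F' g ≤ σ + ρ
      linarith
    · change a * (σ + ρ) + b * ‖m'‖ < t'
      have e2 : ‖m'‖ ≤ ‖m‖ + ρ := by
        rw [dist_eq_norm] at d3
        have := norm_le_norm_add_norm_sub' m' m
        linarith
      have e3 := mul_le_mul_of_nonneg_left e2 hb
      rw [Real.dist_eq] at d4
      have e4 := (abs_le.1 d4).1
      nlinarith
  -- the two sets are disjoint
  have hdisj : Disjoint A (convexHull ℝ K0) := by
    rw [Set.disjoint_left]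
    rintro z ⟨σ, h1, h2⟩ hz
    rw [mem_convexHull_iff_exists_fintype] at hz
    obtain ⟨ι, _, w, zz, hw0, hw1, hzz, hsum⟩ := hz
    choose y hy hzy using hzz
    have hz1 : z.1 = ∑ i, w i • prd (y i - p) (y i - p) := by
      rw [← hsum, Prod.fst_sum]
      exact Finset.sum_congr rfl fun i _ => by rw [hzy i]; rfl
    have hz2 : z.2.1 = ∑ i, w i • (y i - p) := by
      rw [← hsum, Prod.snd_sum, Prod.fst_sum]
      exact Finset.sum_congr rfl fun i _ => by rw [hzy i]; rfl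
    have hz3 : z.2.2 = ∑ i, w i * Φ (y i) := by
      rw [← hsum, Prod.snd_sum, Prod.snd_sum]
      exact Finset.sum_congr rfl fun i _ => by rw [hzy i]; rfl
    have h3 := H ι w y σ hw0 hw1 hy (fun g hg => by
      have h4 := h1 ⟨g, hg⟩
      rw [hz1, BoundedContinuousFunction.sum_apply] at h4
      refine le_trans (le_of_eq (Finset.sum_congr rfl fun i _ => ?_)) h4
      change w i * g (y i - p) ^ 2 = w i * (g (y i - p) * g (y i - p))
      ring)
    rw [hz2, hz3] at h2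
    linarith
  obtain ⟨f, u0, hfA, hfK⟩ := geometric_hahn_banach_open hAc hAo (convex_convexHull ℝ K0) hdisj
  -- the components of `f`
  have hsplit : ∀ (F : (Du X) →ᵇ ℝ) (m : X) (t : ℝ),
      f (F, m, t) = f (F, 0, 0) + f (0, m, 0) + t * f (0, 0, 1) := by
    intro F m t
    have e1 : ((F, m, t) : ((Du X) →ᵇ ℝ) × X × ℝ) = (F, 0, 0) + (0, m, 0) + t • (0, 0, 1) := by
      simp
    rw [e1, map_add, map_add, map_smul, smul_eq_mul]
  set α := f (0, 0, 1) with hα
  have hAone : ∀ t : ℝ, 0 < t → ((0, 0, t) : ((Du X) →ᵇ ℝ) × X × ℝ) ∈ A := by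
    intro t ht
    refine ⟨0, fun g => le_rfl, ?_⟩
    change a * 0 + b * ‖(0 : X)‖ < t
    simpa using ht
  have hpK : ∀ y ∈ C, ((prd (y - p) (y - p), y - p, Φ y) : ((Du X) →ᵇ ℝ) × X × ℝ) ∈ convexHull ℝ K0 :=
    fun y hy => subset_convexHull ℝ K0 ⟨y, hy, rfl⟩
  have hu0 : u0 ≤ 0 := by
    have h1 := hfK _ (hpK p hp)
    have h2 : ((prd (p - p) (p - p), p - p, Φ p) : ((Du X) →ᵇ ℝ) × X × ℝ) = 0 := by
      rw [hΦ, sub_self]
      have h3 : prd (0 : X) 0 = 0 := by
        ext g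
        rw [prd_apply]
        simp
      rw [h3]
      rfl
    rw [h2, map_zero] at h1
    exact h1
  have hα0 : α < 0 := by
    have h1 := hfA _ (hAone 1 one_pos)
    exact h1.trans_le hu0
  have hu1 : 0 ≤ u0 := by
    by_contra hneg
    push Not at hneg
    have h1 : 0 < u0 / (2 * α) := div_pos_of_neg_of_neg hneg (by linarith)
    have h2 := hfA _ (hAone _ h1)
    rw [hsplit] at h2
    have h3 : f ((0 : (Du X) →ᵇ ℝ), (0 : X), (0 : ℝ)) = 0 := by
      have : ((0, 0, 0) : ((Du X) →ᵇ ℝ) × X × ℝ) = 0 := rfl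
      rw [this, map_zero]
    rw [h3] at h2
    have hα' : α ≠ 0 := hα0.ne
    have h4 : u0 / (2 * α) * α = u0 / 2 := by field_simp
    rw [h4] at h2
    linarith
  have hγ : 0 < -α := by linarith
  set γ := -α with hγdef
  -- the basic inequality
  have key : ∀ (F : (Du X) →ᵇ ℝ) (m : X) (σ : ℝ), (∀ g, F g ≤ σ) →
      f (F, 0, 0) + f (0, m, 0) ≤ γ * (a * σ + b * ‖m‖) := by
    intro F m σ hF
    refine le_of_forall_pos_le_add fun ε hε => ?_
    have h1 : ((F, m, a * σ + b * ‖m‖ + ε / γ) : ((Du X) →ᵇ ℝ) × X × ℝ) ∈ A := by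
      refine ⟨σ, hF, ?_⟩
      change a * σ + b * ‖m‖ < a * σ + b * ‖m‖ + ε / γ
      have : 0 < ε / γ := by positivity
      linarith
    have h2 := hfA _ h1
    rw [hsplit] at h2
    have h3 : (a * σ + b * ‖m‖ + ε / γ) * α = -(γ * (a * σ + b * ‖m‖) + ε) := by
      have : α = -γ := by rw [hγdef]; ring
      rw [this]
      field_simp
    rw [h3] at h2
    linarith
  have hmul : ∀ (c : ℝ) (F : (Du X) →ᵇ ℝ), f (c • F, 0, 0) = c * f (F, 0, 0) := by
    intro c F
    have e1 : ((c • F, 0, 0) : ((Du X) →ᵇ ℝ) × X × ℝ) = c • (F, 0, 0) := by simp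
    rw [e1, map_smul, smul_eq_mul]
  have hadd : ∀ (F G : (Du X) →ᵇ ℝ), f (F + G, 0, 0) = f (F, 0, 0) + f (G, 0, 0) := by
    intro F G
    have e1 : ((F + G, 0, 0) : ((Du X) →ᵇ ℝ) × X × ℝ) = (F, 0, 0) + (G, 0, 0) := by simp
    rw [e1, map_add]
  have h00 : f ((0 : (Du X) →ᵇ ℝ), (0 : X), (0 : ℝ)) = 0 := by
    have : ((0, 0, 0) : ((Du X) →ᵇ ℝ) × X × ℝ) = 0 := rfl
    rw [this, map_zero]
  have hka : 0 < γ * a := by positivity
  have keyF : ∀ (F : (Du X) →ᵇ ℝ) (σ : ℝ), (∀ g, F g ≤ σ) → f (F, 0, 0) ≤ γ * a * σ := by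
    intro F σ hF
    have := key F 0 σ hF
    rw [h00, norm_zero, mul_zero, add_zero, add_zero] at this
    linarith
  -- the form
  have hB1 : ∀ u v : X, |f (prd u v, 0, 0) / (γ * a)| ≤ 1 * ‖u‖ * ‖v‖ := by
    intro u v
    have hb1 : ∀ g : Du X, |prd u v g| ≤ ‖u‖ * ‖v‖ := by
      intro g
      rw [prd_apply, abs_mul]
      exact mul_le_mul (du_le g u) (du_le g v) (abs_nonneg _) (norm_nonneg _)
    have e1 := keyF (prd u v) (‖u‖ * ‖v‖) (fun g => (abs_le.1 (hb1 g)).2)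
    have e2 := keyF ((-1 : ℝ) • prd u v) (‖u‖ * ‖v‖) (fun g => by
      change (-1 : ℝ) * prd u v g ≤ ‖u‖ * ‖v‖
      have := (abs_le.1 (hb1 g)).1
      linarith)
    rw [hmul] at e2
    rw [abs_div, abs_of_pos hka, div_le_iff₀ hka, one_mul, abs_le]
    constructor <;> nlinarith
  let Bl : X →ₗ[ℝ] X →ₗ[ℝ] ℝ := LinearMap.mk₂ ℝ (fun u v => f (prd u v, 0, 0) / (γ * a))
    (fun u u' v => by
      have : prd (u + u') v = prd u v + prd u' v := by
        ext g
        change g.1 (u + u') * g.1 v = g.1 u * g.1 v + g.1 u' * g.1 v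
        rw [map_add]; ring
      rw [this, hadd, add_div])
    (fun c u v => by
      have : prd (c • u) v = c • prd u v := by
        ext g
        change g.1 (c • u) * g.1 v = c * (g.1 u * g.1 v)
        rw [map_smul, smul_eq_mul]; ring
      rw [this, hmul, smul_eq_mul, mul_div_assoc])
    (fun u v v' => by
      have : prd u (v + v') = prd u v + prd u v' := by
        ext g
        change g.1 u * g.1 (v + v') = g.1 u * g.1 v + g.1 u * g.1 v'
        rw [map_add]; ring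
      rw [this, hadd, add_div])
    (fun c u v => by
      have : prd u (c • v) = c • prd u v := by
        ext g
        change g.1 u * g.1 (c • v) = c * (g.1 u * g.1 v)
        rw [map_smul, smul_eq_mul]; ring
      rw [this, hmul, smul_eq_mul, mul_div_assoc])
  let B : X →L[ℝ] X →L[ℝ] ℝ := LinearMap.mkContinuous₂ Bl 1 (fun u v => by
    rw [Real.norm_eq_abs]
    exact hB1 u v)
  have hB : ∀ u v, B u v = f (prd u v, 0, 0) / (γ * a) := fun u v => rfl
  let fl : X →ₗ[ℝ] ℝ :=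
    { toFun := fun m => f (0, m, 0) / γ
      map_add' := fun m m' => by
        have e1 : ((0, m + m', 0) : ((Du X) →ᵇ ℝ) × X × ℝ) = (0, m, 0) + (0, m', 0) := by simp
        rw [e1, map_add, add_div]
      map_smul' := fun c m => by
        have e1 : ((0, c • m, 0) : ((Du X) →ᵇ ℝ) × X × ℝ) = c • (0, m, 0) := by simp
        rw [e1, map_smul, smul_eq_mul, mul_div_assoc]
        rfl }
  have hfl : ∀ m, |fl m| ≤ b * ‖m‖ := by
    intro m
    have e1 := key 0 m 0 (fun g => le_rfl)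
    have e2 := key 0 (-m) 0 (fun g => le_rfl)
    have e3 : f ((0 : (Du X) →ᵇ ℝ), -m, (0 : ℝ)) = -f (0, m, 0) := by
      have e1 : ((0, -m, 0) : ((Du X) →ᵇ ℝ) × X × ℝ) = -(0, m, 0) := by simp
      rw [e1, map_neg]
    rw [e3, norm_neg] at e2
    rw [h00, mul_zero, zero_add, zero_add] at e1 e2
    change |f (0, m, 0) / γ| ≤ b * ‖m‖
    rw [abs_div, abs_of_pos hγ, div_le_iff₀ hγ, abs_le]
    constructor <;> nlinarith
  let fc : X →L[ℝ] ℝ := fl.mkContinuous b (fun m => by rw [Real.norm_eq_abs]; exact hfl m)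
  refine ⟨B, fc, ?_, ?_, ?_, ?_, ?_, ?_⟩
  · intro u v
    rw [hB, hB]
    have : prd u v = prd v u := by
      ext g
      rw [prd_apply, prd_apply, mul_comm]
    rw [this]
  · intro u
    have e1 := keyF ((-1 : ℝ) • prd u u) 0 (fun g => by
      change (-1 : ℝ) * (g.1 u * g.1 u) ≤ 0
      nlinarith [mul_self_nonneg (g.1 u)])
    rw [hmul] at e1
    rw [hB]
    apply div_nonneg _ hka.le
    linarith
  · intro u v
    rw [hB]
    have := hB1 u v
    rwa [one_mul] at this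
  · intro n u σ hσ
    have e1 : ∀ s : Finset (Fin n), f (∑ k ∈ s, prd (u k) (u k), 0, 0) = ∑ k ∈ s, f (prd (u k) (u k), 0, 0) := by
      intro s
      induction s using Finset.induction_on with
      | empty => simpa using h00
      | insert k s hk ih => rw [Finset.sum_insert hk, Finset.sum_insert hk, hadd, ih]
    have e2 := keyF (∑ k, prd (u k) (u k)) σ (fun g => by
      rw [BoundedContinuousFunction.sum_apply]
      refine le_trans (le_of_eq (Finset.sum_congr rfl fun k _ => ?_)) (hσ g.1 g.2)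
      rw [prd_apply]; ring)
    rw [e1] at e2
    have e3 : ∑ k, B (u k) (u k) = (∑ k, f (prd (u k) (u k), 0, 0)) / (γ * a) := by
      rw [Finset.sum_div]
      exact Finset.sum_congr rfl fun k _ => hB _ _
    rw [e3, div_le_iff₀ hka]
    linarith
  · exact LinearMap.mkContinuous_norm_le _ hb _
  · intro y hy
    have e1 := hfK _ (hpK y hy)
    rw [hsplit] at e1
    have e2 : a * B (y - p) (y - p) = f (prd (y - p) (y - p), 0, 0) / γ := by
      rw [hB]
      field_simp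
    have e3 : fc (y - p) = f (0, y - p, 0) / γ := rfl
    rw [e2, e3, ← add_div, le_div_iff₀ hγ]
    have : α = -γ := by rw [hγdef]; ring
    rw [this] at e1
    nlinarith

end Pool.Agent.Lib.MP_b6bd4b_an.SB
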