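import Pool.Agent.Lib.MP_b6bd4b_an.SB.Col
import Pool.Agent.Lib.MP_b6bd4b_an.SB.Dsp
import Pool.Agent.Lib.MP_b6bd4b_an.SB.Cel

/-!
Module Stp: one step of the iteration.

PLAN. `e = ev (l + om) x ≤ ev l x ≤ ρ` (`ev_anti`). If `e ≤ ρ / 4` take `p = x`. Otherwise `e > ρ/4 > 0`, `e ≤ 1`. `P0 = (b om / (1040 d))^d ≤ 1`, `η = e P0 / 8`. Take by `ev_near`
(for `l + om`) a representation with `gain_{l+om} > e - η`. `pen = a s + b D`, `D = ∑ w ‖δ‖`. `om * pen = gain_l - gain_{l+om} ≤ ρ - (e - η) ≤ 4 e` (`le_ev` for `l`), so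
`s ≤ 4 e/(a om)`, `D ≤ 4 e/(b om)`. Energy gain `G = gain_{l+om} + (l+om) pen ≤ e + 4 e/om ≤ 5 e/om` (`gain ≤ e` by `le_ev`, `om ≤ 1/2`). `spread`: `∑ w ‖T(ξ+δ) - T x‖² ≤ G + 2 D ≤ Q = 13 e/(b om)`.
`cell` with `r = √(e/8)`, `z = T(ξ+δ)`, `z0 = T x`: `E` with `P = ∑_E w ≥ (r²/(10 d Q))^d = P0`. `part_mem` gives `p`. `collapse` (for `l+om`):
`P ev p ≤ e - gain + P r² ≤ η + P e/8 ≤ P e/4`, so `ev p ≤ e/4 ≤ ρ/4`. `disp`: `‖p - x‖ ≤ √(s/P) + D/P ≤ 2 √e/(a om P0) + 4 e/(b om P0) ≤ (2/a + 4/b) √e/(om P0)`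
(`√(4 e/(a om P0)) = 2 √e √(1/(a om P0))`, `a om P0 ≤ 1`; `e ≤ √e`), and `1/(om P0) = (1040 d/b)^d / om^(d+1)`, `√e ≤ √ρ`.
-/

namespace Pool.Agent.Lib.MP_b6bd4b_an.SB

open Finset

variable {X : Type*} [NormedAddCommGroup X] [NormedSpace ℝ X] {d : ℕ}

theorem step (hd : 1 ≤ d) (T : X →L[ℝ] Eu d) (hT : ‖T‖ ≤ 1) (C : Set X) (hC : ∀ y ∈ C, ‖T y‖ ≤ 1)
    (hCc : Convex ℝ C) (a b : ℝ) (ha : 0 < a) (ha1 : a ≤ 1) (hb : 0 < b) (hb1 : b ≤ 1)
    (l om : ℝ) (hl : 1 / 2 ≤ l) (hom : 0 < om) (hl1 : l + om ≤ 1)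
    (x : X) (hx : x ∈ C) (ρ : ℝ) (hρ0 : 0 < ρ) (hρ1 : ρ ≤ 1) (h : ev T C a b l x ≤ ρ) :
    ∃ p ∈ C, ev T C a b (l + om) p ≤ ρ / 4 ∧
      ‖p - x‖ ≤ (2 / a + 4 / b) * (1040 * d / b) ^ d * Real.sqrt ρ / om ^ (d + 1) := by
  have hd' : (1 : ℝ) ≤ d := by exact_mod_cast hd
  have hl0 : 0 ≤ l := by linarith
  have hlo0 : 0 ≤ l + om := by linarith
  have hom1 : om ≤ 1 / 2 := by linarith
  have he0 := ev_nonneg T C hC a b (l + om) ha.le hb.le hlo0 x hx
  have heρ : ev T C a b (l + om) x ≤ ρ :=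
    (ev_anti T C hC a b l (l + om) ha.le hb.le hl0 (by linarith) x hx).trans h
  by_cases hcase : ev T C a b (l + om) x ≤ ρ / 4
  · refine ⟨x, hx, hcase, ?_⟩
    rw [sub_self, norm_zero]
    positivity
  push Not at hcase
  set e : ℝ := ev T C a b (l + om) x with he
  have hepos : 0 < e := by linarith
  have he1 : e ≤ 1 := heρ.trans hρ1
  have hbo : 0 < b * om := mul_pos hb hom
  have hbo1 : b * om ≤ 1 := by nlinarith
  obtain ⟨P0, hP0⟩ : ∃ P0 : ℝ, P0 = (b * om / (1040 * d)) ^ d := ⟨_, rfl⟩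
  have hP0pos : 0 < P0 := by rw [hP0]; positivity
  have hP01 : P0 ≤ 1 := by
    rw [hP0]
    refine pow_le_one₀ (by positivity) ?_
    rw [div_le_one (by positivity)]
    nlinarith
  obtain ⟨ι, _, w, ξ, δ, s, hrep, hgain⟩ := ev_near T C a b (l + om) x hx (e * P0 / 8) (by positivity)
  rw [← he] at hgain
  have hgl := (le_ev T C hC a b l ha.le hb.le hl0 x w ξ δ s hrep).trans h
  have hglo := le_ev T C hC a b (l + om) ha.le hb.le hlo0 x w ξ δ s hrep
  rw [← he] at hglo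
  obtain ⟨D, hD⟩ : ∃ D : ℝ, D = ∑ i, w i * ‖δ i‖ := ⟨_, rfl⟩
  obtain ⟨G, hG⟩ : ∃ G : ℝ, G = ∑ i, w i * ‖T (ξ i + δ i)‖ ^ 2 - ‖T x‖ ^ 2 := ⟨_, rfl⟩
  obtain ⟨g, hg⟩ : ∃ g : ℝ, g = gain T a b (l + om) x w ξ δ s := ⟨_, rfl⟩
  have hD0 : 0 ≤ D := by
    rw [hD]
    exact Finset.sum_nonneg fun i _ => mul_nonneg (hrep.w0 i) (norm_nonneg _)
  have hs0 := hrep.s0
  have e1 : gain T a b l x w ξ δ s = G - l * (a * s + b * D) := by rw [hG, hD]; rfl
  have e2 : g = G - (l + om) * (a * s + b * D) := by rw [hg, hG, hD]; rfl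
  rw [e1] at hgl
  rw [← hg] at hgain hglo
  have hη : e * P0 / 8 ≤ e / 8 := by
    have := mul_le_mul_of_nonneg_left hP01 hepos.le
    linarith
  have hpen : om * (a * s + b * D) ≤ 4 * e := by
    have : om * (a * s + b * D) = (G - l * (a * s + b * D)) - g := by rw [e2]; ring
    rw [this]
    linarith
  have has0 : 0 ≤ a * s := mul_nonneg ha.le hs0
  have hbD0 : 0 ≤ b * D := mul_nonneg hb.le hD0
  have hs1 : om * (a * s) ≤ 4 * e := by
    have := mul_nonneg hom.le hbD0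
    nlinarith
  have hD1 : om * (b * D) ≤ 4 * e := by
    have := mul_nonneg hom.le has0
    nlinarith
  -- spread
  have hGle : om * G ≤ 5 * e := by
    have h1 : G = g + (l + om) * (a * s + b * D) := by rw [e2]; ring
    have h2 : (l + om) * (a * s + b * D) ≤ 1 * (a * s + b * D) :=
      mul_le_mul_of_nonneg_right hl1 (by linarith)
    have h3 : om * G ≤ om * (e + (a * s + b * D)) := by
      refine mul_le_mul_of_nonneg_left ?_ hom.le
      rw [h1]
      linarith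
    nlinarith
  have hQ : G + 2 * D ≤ 13 * e / (b * om) := by
    rw [le_div_iff₀ hbo]
    have h1 : b * (om * G) ≤ 5 * e := by
      rcases le_or_gt 0 (om * G) with h0 | h0
      · calc b * (om * G) ≤ 1 * (om * G) := mul_le_mul_of_nonneg_right hb1 h0
          _ ≤ 5 * e := by linarith
      · have := mul_neg_of_pos_of_neg hb h0
        linarith
    nlinarith
  have hspr : ∑ i, w i * ‖T (ξ i + δ i) - T x‖ ^ 2 ≤ 13 * e / (b * om) := by
    refine le_trans ?_ hQ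
    have := spread T hT C x (hC x hx) w ξ δ s hrep
    rw [hG, hD]
    exact this
  have hQpos : 0 < 13 * e / (b * om) := by positivity
  have hr2 : Real.sqrt (e / 8) ^ 2 = e / 8 := Real.sq_sqrt (by positivity)
  have hrpos : 0 < Real.sqrt (e / 8) := Real.sqrt_pos.2 (by positivity)
  obtain ⟨E, hE, hEr⟩ := cell hd w hrep.w0 hrep.w1 (fun i => T (ξ i + δ i)) (T x)
    (13 * e / (b * om)) hQpos hspr (Real.sqrt (e / 8)) hrpos (by
      rw [hr2, le_div_iff₀ hbo]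
      have := mul_le_mul_of_nonneg_left hbo1 hepos.le
      nlinarith)
  have hPeq : (Real.sqrt (e / 8) ^ 2 / (10 * d * (13 * e / (b * om)))) ^ d = P0 := by
    rw [hP0, hr2]
    congr 1
    have hdne : (d : ℝ) ≠ 0 := by positivity
    field_simp
    norm_num
  rw [hPeq] at hE
  obtain ⟨P, hP⟩ : ∃ P : ℝ, P = ∑ i ∈ E, w i := ⟨_, rfl⟩
  rw [← hP] at hE
  have hPpos : 0 < P := lt_of_lt_of_le hP0pos hE
  obtain ⟨p, hpC, hp, hpr⟩ := part_mem C hCc x w ξ δ s hrep E P hP hPpos T (Real.sqrt (e / 8)) hEr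
  refine ⟨p, hpC, ?_, ?_⟩
  · have hcol := collapse T C hC a b (l + om) ha.le hb.le hlo0 x w ξ δ s hrep E P hP hPpos p hp hpC
    rw [← he, ← hg] at hcol
    have h1 : ∑ i ∈ E, w i * ‖T (ξ i + δ i - p)‖ ^ 2 ≤ P * (e / 8) := by
      rw [hP, Finset.sum_mul]
      refine Finset.sum_le_sum fun i hi => mul_le_mul_of_nonneg_left ?_ (hrep.w0 i)
      rw [← hr2]
      exact pow_le_pow_left₀ (norm_nonneg _) (hpr i hi) 2
    have h2 : e * P0 / 8 ≤ P * (e / 8) := by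
      have := mul_le_mul_of_nonneg_right hE hepos.le
      linarith
    have h3 : P * ev T C a b (l + om) p ≤ P * (e / 4) := by linarith
    have h4 := le_of_mul_le_mul_left h3 hPpos
    linarith
  · have hdis := disp C x w ξ δ s hrep E P hP hPpos p hp
    rw [← hD] at hdis
    have hse : 0 < Real.sqrt e := Real.sqrt_pos.2 hepos
    have hse2 : Real.sqrt e ^ 2 = e := Real.sq_sqrt hepos.le
    have hse1 : e ≤ Real.sqrt e := by
      have : Real.sqrt e ≤ 1 := by rw [Real.sqrt_le_one]; exact he1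
      nlinarith
    have hseρ : Real.sqrt e ≤ Real.sqrt ρ := Real.sqrt_le_sqrt heρ
    have haoP : 0 < a * om * P0 := by positivity
    have haoP1 : a * om * P0 ≤ 1 := by
      have h1 : a * om ≤ 1 := by nlinarith
      calc a * om * P0 ≤ 1 * 1 := mul_le_mul h1 hP01 hP0pos.le zero_le_one
        _ = 1 := one_mul 1
    have hA : Real.sqrt (s / P) ≤ 2 * Real.sqrt e / (a * om * P0) := by
      refine Real.sqrt_le_iff.2 ⟨by positivity, ?_⟩
      rw [div_pow, mul_pow, hse2, div_le_div_iff₀ hPpos (by positivity)]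
      have h1 : s * (a * om) ≤ 4 * e := by linarith
      have h2 : a * om * P0 ^ 2 ≤ P := by
        have h3 : a * om * P0 ^ 2 = (a * om * P0) * P0 := by ring
        rw [h3]
        nlinarith
      calc s * (a * om * P0) ^ 2 = (s * (a * om)) * (a * om * P0 ^ 2) := by ring
        _ ≤ (4 * e) * P := mul_le_mul h1 h2 (by positivity) (by positivity)
        _ = 2 ^ 2 * e * P := by ring
    have hB : D / P ≤ 4 * Real.sqrt e / (b * om * P0) := by
      rw [div_le_div_iff₀ hPpos (by positivity)]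
      calc D * (b * om * P0) = (om * (b * D)) * P0 := by ring
        _ ≤ (4 * Real.sqrt e) * P :=
          mul_le_mul (by linarith) hE hP0pos.le (by positivity)
    have hfin : 2 * Real.sqrt e / (a * om * P0) + 4 * Real.sqrt e / (b * om * P0) =
        (2 / a + 4 / b) * (1040 * d / b) ^ d * Real.sqrt e / om ^ (d + 1) := by
      have h1 : 1 / (om * P0) = (1040 * d / b) ^ d / om ^ (d + 1) := by
        rw [hP0, div_pow, div_pow, mul_pow, pow_succ]
        have hdne : (d : ℝ) ≠ 0 := by positivity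
        field_simp
      calc 2 * Real.sqrt e / (a * om * P0) + 4 * Real.sqrt e / (b * om * P0)
          = (2 / a + 4 / b) * Real.sqrt e * (1 / (om * P0)) := by field_simp
        _ = (2 / a + 4 / b) * (1040 * d / b) ^ d * Real.sqrt e / om ^ (d + 1) := by rw [h1]; ring
    calc ‖p - x‖ ≤ Real.sqrt (s / P) + D / P := hdis
      _ ≤ 2 * Real.sqrt e / (a * om * P0) + 4 * Real.sqrt e / (b * om * P0) := add_le_add hA hB
      _ = (2 / a + 4 / b) * (1040 * d / b) ^ d * Real.sqrt e / om ^ (d + 1) := hfin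
      _ ≤ (2 / a + 4 / b) * (1040 * d / b) ^ d * Real.sqrt ρ / om ^ (d + 1) := by
        refine div_le_div_of_nonneg_right ?_ (by positivity)
        exact mul_le_mul_of_nonneg_left hseρ (by positivity)

end Pool.Agent.Lib.MP_b6bd4b_an.SB
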